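import Pool.Agent.Work.MP_8a6869_an.LG
import Pool.Agent.Work.MP_8a6869_an.Stmts
import Pool.Agent.Work.MP_8a6869_an.Sep

/-! Bundle of small proof modules (one section per former module). -/

section

/-!
# MP_8a6869_an: `L(G)` is a II_1 factor for `G` infinite and icc
-/

namespace MP8a6869

open scoped InnerProductSpace ComplexOrder ENNReal
open Filter Topology

noncomputable section

theorem LG_factor (G : Type) [Group G] [Infinite G]
    (hicc : ∀ g : G, g ≠ 1 → (Set.range fun h : G => h * g * h⁻¹).Infinite) :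
    (LG G).IsII1Factor := by
  classical
  constructor
  · intro z hz hz'
    change ell2 G →L[ℂ] ell2 G at z
    change z ∈ LGalg G at hz
    change z ∈ (LGalg G).commutant at hz'
    have hz2 : ∀ g : G, leftReg G g * z = z * leftReg G g := fun g =>
      (VonNeumannAlgebra.mem_commutant_iff.1 hz') _ (leftReg_mem G g)
    set v : ell2 G := z (delta 1) with hv
    have hconj : ∀ g h : G, v (h * g * h⁻¹) = v g := by
      intro g h
      have e1 : leftReg G h⁻¹ (rightReg G h⁻¹ v) = v := by
        have a1 := congrArg (fun t : ell2 G →L[ℂ] ell2 G => t (delta (1 : G)))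
          (comm_rightReg G hz h⁻¹)
        simp only [mul_apply_eq_comp] at a1
        have a2 := congrArg (fun t : ell2 G →L[ℂ] ell2 G => t (rightReg G h⁻¹ (delta (1 : G))))
          (hz2 h⁻¹)
        simp only [mul_apply_eq_comp] at a2
        rw [hv, a1, a2, rightReg_delta, leftReg_delta]
        simp
      have e2 := congrArg (fun t : ell2 G => t g) e1
      simp only [leftReg_apply, rightReg_apply, inv_inv] at e2
      exact e2
    have hzero : ∀ g : G, g ≠ 1 → v g = 0 := by
      intro g hg
      by_contra hne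
      have h2 : (0 : ℝ) < (2 : ℝ≥0∞).toReal := by norm_num
      have hs := (memℓp_gen_iff h2).1 (lp.memℓp v)
      have hfin : {x : G | ‖v g‖ ^ (2 : ℝ≥0∞).toReal ≤ ‖v x‖ ^ (2 : ℝ≥0∞).toReal}.Finite := by
        have hpos : 0 < ‖v g‖ ^ (2 : ℝ≥0∞).toReal :=
          Real.rpow_pos_of_pos (norm_pos_iff.2 hne) _
        have ht := hs.tendsto_cofinite_zero
        have := ht.eventually (gt_mem_nhds hpos)
        rw [Filter.eventually_cofinite] at this
        simpa only [not_lt] using this
      refine (hicc g hg) (hfin.subset ?_)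
      rintro _ ⟨h, rfl⟩
      change ‖v g‖ ^ (2 : ℝ≥0∞).toReal ≤ ‖v (h * g * h⁻¹)‖ ^ (2 : ℝ≥0∞).toReal
      rw [hconj]
    refine ⟨v 1, ?_⟩
    have hmem : z - v 1 • (1 : ell2 G →L[ℂ] ell2 G) ∈ LGalg G := by
      have h1 : v 1 • (1 : ell2 G →L[ℂ] ell2 G) ∈ (LGalg G).toStarSubalgebra :=
        (LGalg G).toStarSubalgebra.smul_mem (one_mem _) _
      exact sub_mem hz h1
    have h3 := ext_of_delta G hmem (by
      ext g
      change v g - (v 1 • (delta (1 : G) : ell2 G)) g = 0
      rw [lp.coeFn_smul, Pi.smul_apply, delta, lp.single_apply, Pi.single_apply]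
      by_cases hg : g = 1
      · rw [if_pos hg, hg, smul_eq_mul, mul_one, sub_self]
      · rw [if_neg hg, hzero g hg, smul_zero, sub_zero])
    exact sub_eq_zero.1 h3
  · intro hfd'
    let L : (LGalg G).toStarSubalgebra →ₗ[ℂ] ell2 G :=
      { toFun := fun x => (x : ell2 G →L[ℂ] ell2 G) (delta 1)
        map_add' := fun x y => rfl
        map_smul' := fun c x => rfl }
    let v : G → (LGalg G).toStarSubalgebra := fun g => ⟨leftReg G g, leftReg_mem G g⟩
    have hon : Orthonormal ℂ (L ∘ v) := by
      rw [orthonormal_iff_ite]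
      intro g h
      change ⟪leftReg G g (delta 1), leftReg G h (delta 1)⟫_ℂ = _
      rw [leftReg_delta, leftReg_delta, mul_one, mul_one, inner_delta_left, delta,
        lp.single_apply, Pi.single_apply]
    have hfd : FiniteDimensional ℂ (LGalg G).toStarSubalgebra := hfd'
    have hli : LinearIndependent ℂ v := LinearIndependent.of_comp L hon.linearIndependent
    have := hli.finite
    exact not_finite G

end

end MP8a6869

end

section

/-!
# MP_8a6869_an, item F1: the kernel is hermitian and positive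
-/

set_option linter.unusedSectionVars false

namespace MP8a6869

open scoped InnerProductSpace ComplexOrder

noncomputable section

section F1

variable {A : Type} [Ring A] [StarRing A] [Algebra ℂ A] [StarModule ℂ A] {T : TrAlg A}

theorem form_nil_left (C : Cov T) (h : A) (Y : List A) : form C h [] Y = 0 := by
  cases Y with
  | nil => rw [form]; all_goals simp
  | cons y Y => rw [form]; all_goals simp

theorem form_nil_right (C : Cov T) (h : A) (X : List A) : form C h X [] = 0 := by
  match X with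
  | [] => exact form_nil_left C h []
  | [x] => rw [form]; all_goals simp
  | x :: x' :: X => rw [form]; all_goals simp

theorem form_one_two (C : Cov T) (h x y y' : A) (Y : List A) :
    form C h [x] (y :: y' :: Y) = 0 := by
  rw [form]; all_goals simp

theorem form_two_one (C : Cov T) (h x x' y : A) (X : List A) :
    form C h (x :: x' :: X) [y] = 0 := by
  rw [form]; all_goals simp

theorem form_one_one (C : Cov T) (h x y : A) :
    form C h [x] [y] = T.τ (star x * h * y) := by
  rw [form]

theorem form_two_two (C : Cov T) (h x x' y y' : A) (X Y : List A) :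
    form C h (x :: x' :: X) (y :: y' :: Y) =
      form C (C.E (star x * h * y)) (x' :: X) (y' :: Y) := by
  rw [form]

theorem form_herm_aux (C : Cov T) : ∀ (X Y : List A) (h : A),
    form C (star h) Y X = (starRingEnd ℂ) (form C h X Y)
  | [], Y, h => by rw [form_nil_left, form_nil_right, map_zero]
  | [x], [], h => by rw [form_nil_left, form_nil_right, map_zero]
  | [x], [y], h => by
    rw [form_one_one, form_one_one, ← T.τ_star]
    simp only [star_mul, star_star, mul_assoc]
  | [x], y :: y' :: Y, h => by rw [form_one_two, form_two_one, map_zero]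
  | x :: x' :: X, [], h => by rw [form_nil_left, form_nil_right, map_zero]
  | x :: x' :: X, [y], h => by rw [form_one_two, form_two_one, map_zero]
  | x :: x' :: X, y :: y' :: Y, h => by
    rw [form_two_two, form_two_two, ← form_herm_aux C (x' :: X) (y' :: Y), ← C.E_star]
    simp only [star_mul, star_star, mul_assoc]

/-- [F1] The kernel is hermitian. -/
theorem formHerm : FormHermStmt := by
  intro A _ _ _ _ T C h X Y
  exact form_herm_aux C X Y h

theorem form_step (C : Cov T) (h : A) (X Y : List A) :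
    form C h X Y = (if X.length = 1 ∧ Y.length = 1 then
      T.τ (star (X.headD 0) * h * Y.headD 0) else 0) +
        form C (C.E (star (X.headD 0) * h * Y.headD 0)) X.tail Y.tail := by
  match X, Y with
  | [], Y => simp [form_nil_left]
  | [x], [] => simp [form_nil_right]
  | [x], [y] => simp [form_one_one, form_nil_left]
  | [x], y :: y' :: Y => simp [form_one_two, form_nil_left]
  | x :: x' :: X, [] => simp [form_nil_right]
  | x :: x' :: X, [y] => simp [form_two_one, form_nil_right]
  | x :: x' :: X, y :: y' :: Y => simp [form_two_two]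

theorem form_pos_aux (C : Cov T) (m : ℕ) : ∀ (n : Type) [Fintype n] (H : n → n → A),
    (∀ c : n → A, 0 ≤ ∑ i, ∑ j, T.τ (star (c i) * H i j * c j)) →
    ∀ (X : n → List A), (∀ i, (X i).length ≤ m) → ∀ c : n → ℂ,
      0 ≤ ∑ i, ∑ j, (starRingEnd ℂ) (c i) * c j * form C (H i j) (X i) (X j) := by
  induction m with
  | zero =>
    intro n _ H _ X hX c
    have h0 : ∀ i, X i = [] := fun i => List.length_eq_zero_iff.1 (Nat.le_zero.1 (hX i))
    refine le_of_eq (Eq.symm (Finset.sum_eq_zero fun i _ => Finset.sum_eq_zero fun j _ => ?_))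
    rw [h0 i, form_nil_left, mul_zero]
  | succ m ih =>
    intro n _ H hH X hX c
    have h1 := hH fun i => if (X i).length = 1 then c i • (X i).headD 0 else 0
    have h2 := ih n (fun i j => C.E (star ((X i).headD 0) * H i j * (X j).headD 0))
      (fun d => by
        refine C.E_cp n (fun i j => star ((X i).headD 0) * H i j * (X j).headD 0) (fun e => ?_) d
        refine le_of_le_of_eq (hH fun i => (X i).headD 0 * e i) ?_
        refine Finset.sum_congr rfl fun i _ => Finset.sum_congr rfl fun j _ => ?_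
        simp only [star_mul, mul_assoc])
      (fun i => (X i).tail) (fun i => by
        have := hX i
        simp only [List.length_tail]
        omega) c
    refine le_of_le_of_eq (add_nonneg h1 h2) ?_
    rw [← Finset.sum_add_distrib]
    refine Finset.sum_congr rfl fun i _ => ?_
    rw [← Finset.sum_add_distrib]
    refine Finset.sum_congr rfl fun j _ => ?_
    rw [form_step C (H i j) (X i) (X j), mul_add]
    congr 1
    by_cases hi : (X i).length = 1
    · by_cases hj : (X j).length = 1
      · rw [if_pos hi, if_pos hj, if_pos ⟨hi, hj⟩, star_smul, smul_mul_assoc, smul_mul_assoc,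
          mul_smul_comm, map_smul, map_smul, smul_eq_mul, smul_eq_mul, ← mul_assoc]
        rfl
      · rw [if_neg hj, if_neg (fun h : _ ∧ _ => hj h.2), mul_zero, mul_zero, map_zero]
    · rw [if_neg hi, if_neg (fun h : _ ∧ _ => hi h.1), star_zero, zero_mul, zero_mul, mul_zero,
        map_zero]

/-- [F2] The kernel is positive. -/
theorem formPos : FormPosStmt := by
  intro A _ _ _ _ T C n _ X c
  refine form_pos_aux C (Finset.univ.sup fun i => (X i).length) n (fun _ _ => 1) (fun d => ?_) X
    (fun i => Finset.le_sup (f := fun i => (X i).length) (Finset.mem_univ i)) c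
  refine le_of_le_of_eq (T.pos (∑ j, d j)) ?_
  rw [star_sum, Finset.sum_mul, map_sum]
  refine Finset.sum_congr rfl fun i _ => ?_
  rw [Finset.mul_sum, map_sum]
  refine Finset.sum_congr rfl fun j _ => ?_
  rw [mul_one]

end F1

end

end MP8a6869

end

section

/-!
# MP_8a6869_an: [F3] reversal symmetry of the kernel
-/

namespace MP8a6869

noncomputable section

namespace F3

variable {A : Type} [Ring A] [StarRing A] [Algebra ℂ A] {T : TrAlg A}

/-- backward products -/
def bw (C : Cov T) : List A → List A → A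
  | [x], [y] => y * star x
  | x :: x' :: X, y :: y' :: Y => y * C.E (bw C (x' :: X) (y' :: Y)) * star x
  | _, _ => 0

/-- forward products -/
def fw (C : Cov T) : A → List A → List A → A
  | h, [x], [y] => star x * h * y
  | h, x :: x' :: X, y :: y' :: Y => fw C (C.E (star x * h * y)) (x' :: X) (y' :: Y)
  | _, _, _ => 0

theorem form_eq_fw (C : Cov T) : ∀ (X Y : List A) (h : A), form C h X Y = T.τ (fw C h X Y)
  | [], _, h => by simp [form, fw]
  | [x], [], h => by simp [form, fw]
  | [x], [y], h => by simp [form, fw]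
  | [x], y :: y' :: Y, h => by simp [form, fw]
  | x :: x' :: X, [], h => by simp [form, fw]
  | x :: x' :: X, [y], h => by simp [form, fw]
  | x :: x' :: X, y :: y' :: Y, h => by
    rw [form, fw]
    exact form_eq_fw C (x' :: X) (y' :: Y) _

theorem form_eq_bw (C : Cov T) : ∀ (X Y : List A) (h : A), form C h X Y = T.τ (h * bw C X Y)
  | [], _, h => by simp [form, bw]
  | [x], [], h => by simp [form, bw]
  | [x], [y], h => by
    rw [form, bw, mul_assoc, T.comm, mul_assoc]
  | [x], y :: y' :: Y, h => by simp [form, bw]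
  | x :: x' :: X, [], h => by simp [form, bw]
  | x :: x' :: X, [y], h => by simp [form, bw]
  | x :: x' :: X, y :: y' :: Y, h => by
    rw [form, bw, form_eq_bw C (x' :: X) (y' :: Y) _, C.E_symm, mul_assoc, mul_assoc, T.comm]
    simp only [mul_assoc]

theorem fw_append (C : Cov T) (x y : A) : ∀ (X Y : List A) (h : A), X ≠ [] →
    X.length = Y.length → fw C h (X ++ [x]) (Y ++ [y]) = star x * C.E (fw C h X Y) * y
  | [], _, h, hX, _ => absurd rfl hX
  | [x0], [y0], h, _, _ => by simp [fw]
  | [x0], [], h, _, hl => by simp at hl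
  | [x0], y :: y' :: Y, h, _, hl => by simp at hl
  | x0 :: x1 :: X, [], h, _, hl => by simp at hl
  | x0 :: x1 :: X, [y0], h, _, hl => by simp at hl
  | x0 :: x1 :: X, y0 :: y1 :: Y, h, _, hl => by
    have h1 := fw_append C x y (x1 :: X) (y1 :: Y) (C.E (star x0 * h * y0)) (by simp)
      (by simpa using hl)
    simp only [List.cons_append] at h1 ⊢
    rw [fw, fw, h1]

theorem revStar_cons (x : A) (X : List A) : revStar (x :: X) = revStar X ++ [star x] := by
  simp [revStar]

theorem revStar_length (X : List A) : (revStar X).length = X.length := by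
  simp [revStar]

theorem fw_rev (C : Cov T) : ∀ (X Y : List A), X.length = Y.length →
    fw C 1 (revStar X) (revStar Y) = bw C Y X
  | [], [], _ => by simp [fw, bw, revStar]
  | [], y :: Y, hl => by simp at hl
  | x :: X, [], hl => by simp at hl
  | [x], [y], _ => by simp [fw, bw, revStar]
  | [x], y :: y' :: Y, hl => by simp at hl
  | x :: x' :: X, [y], hl => by simp at hl
  | x :: x' :: X, y :: y' :: Y, hl => by
    have hl' : (x' :: X).length = (y' :: Y).length := by simpa using hl
    rw [revStar_cons x, revStar_cons y, fw_append C _ _ _ _ _ ?_ ?_, fw_rev C _ _ hl', bw,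
      star_star]
    · intro h0
      have := revStar_length (x' :: X)
      rw [h0] at this
      simp at this
    · rw [revStar_length, revStar_length, hl']

theorem form_length (C : Cov T) : ∀ (X Y : List A) (h : A), X.length ≠ Y.length →
    form C h X Y = 0
  | [], _, h, _ => by simp [form]
  | [x], [], h, _ => by simp [form]
  | [x], [y], h, hl => by simp at hl
  | [x], y :: y' :: Y, h, _ => by simp [form]
  | x :: x' :: X, [], h, _ => by simp [form]
  | x :: x' :: X, [y], h, _ => by simp [form]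
  | x :: x' :: X, y :: y' :: Y, h, hl => by
    rw [form]
    exact form_length C _ _ _ (by simpa using hl)

end F3

open F3 in
theorem formRev : FormRevStmt := by
  intro A _ _ _ _ T C X Y
  by_cases hl : X.length = Y.length
  · rw [form_eq_fw, fw_rev C X Y hl, form_eq_bw C Y X 1, one_mul]
  · rw [form_length C _ _ _ (by rw [revStar_length, revStar_length]; exact hl),
      form_length C _ _ _ (fun h => hl h.symm)]

end

end MP8a6869

end

section

/-!
# MP_8a6869_an: [F4] the left system
-/

namespace MP8a6869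

open scoped InnerProductSpace ComplexOrder

noncomputable section

namespace F4

section Hilb

variable {H : Type} [NormedAddCommGroup H] [InnerProductSpace ℂ H]

theorem norm_sum_sq {n : Type} [Fintype n] (c : n → ℂ) (w : n → H) :
    ((‖∑ i, c i • w i‖ ^ 2 : ℝ) : ℂ) =
      ∑ i, ∑ j, (starRingEnd ℂ) (c i) * c j * ⟪w i, w j⟫_ℂ := by
  have h : ((‖∑ i, c i • w i‖ ^ 2 : ℝ) : ℂ) = ⟪∑ i, c i • w i, ∑ i, c i • w i⟫_ℂ := by
    rw [inner_self_eq_norm_sq_to_K]
    simp
  rw [h, sum_inner]
  refine Finset.sum_congr rfl fun i _ => ?_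
  rw [inner_sum]
  refine Finset.sum_congr rfl fun j _ => ?_
  rw [inner_smul_left, inner_smul_right, mul_assoc]

theorem eq_of_test {S : Type} {vec : S → H}
    (hd : (Submodule.span ℂ (Set.range vec)).topologicalClosure = ⊤) {x y : H}
    (h : ∀ s, ⟪vec s, x⟫_ℂ = ⟪vec s, y⟫_ℂ) : x = y := by
  have hd' : Dense (Submodule.span ℂ (Set.range vec) : Set H) :=
    Submodule.dense_iff_topologicalClosure_eq_top.2 hd
  refine hd'.eq_of_inner_right (𝕜 := ℂ) ?_
  intro v hv
  change ⟪v, x⟫_ℂ = ⟪v, y⟫_ℂ
  induction hv using Submodule.span_induction with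
  | mem v hv =>
    obtain ⟨s, rfl⟩ := hv
    exact h s
  | zero => rw [inner_zero_left, inner_zero_left]
  | add a b _ _ ha hb => rw [inner_add_left, inner_add_left, ha, hb]
  | smul c a _ ha => rw [inner_smul_left, inner_smul_left, ha]

end Hilb

variable {A : Type} [Ring A] [StarRing A] [Algebra ℂ A] {T : TrAlg A} (C : Cov T)

theorem form_nil_left (h : A) (Y : List A) : form C h [] Y = 0 := by
  cases Y <;> simp [form]

theorem form_nil_right (h : A) (X : List A) : form C h X [] = 0 := by
  rcases X with _ | ⟨x, _ | ⟨x', X⟩⟩ <;> simp [form]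

theorem form_add : ∀ (X Y : List A) (h h' : A),
    form C (h + h') X Y = form C h X Y + form C h' X Y
  | [], _, h, h' => by simp [form_nil_left]
  | [x], [], h, h' => by simp [form]
  | [x], [y], h, h' => by simp [form, mul_add, add_mul]
  | [x], y :: y' :: Y, h, h' => by simp [form]
  | x :: x' :: X, [], h, h' => by simp [form]
  | x :: x' :: X, [y], h, h' => by simp [form]
  | x :: x' :: X, y :: y' :: Y, h, h' => by
    rw [form, form, form, mul_add, add_mul, map_add]
    exact form_add _ _ _ _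

theorem form_smul (c : ℂ) : ∀ (X Y : List A) (h : A),
    form C (c • h) X Y = c * form C h X Y
  | [], _, h => by simp [form_nil_left]
  | [x], [], h => by simp [form]
  | [x], [y], h => by simp [form]
  | [x], y :: y' :: Y, h => by simp [form]
  | x :: x' :: X, [], h => by simp [form]
  | x :: x' :: X, [y], h => by simp [form]
  | x :: x' :: X, y :: y' :: Y, h => by
    rw [form, form, mul_smul_comm, smul_mul_assoc, map_smul]
    exact form_smul c _ _ _

theorem form_zero (X Y : List A) : form C 0 X Y = 0 := by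
  have h := form_smul C 0 X Y 0
  rwa [zero_smul, zero_mul] at h

theorem form_list_sum (X Y : List A) (l : List A) :
    form C l.sum X Y = (l.map fun h => form C h X Y).sum := by
  induction l with
  | nil => simp [form_zero]
  | cons a l ih => rw [List.sum_cons, form_add, ih, List.map_cons, List.sum_cons]

theorem form_mul (h a b x y : A) (X Y : List A) :
    form C h ((a * x) :: X) ((b * y) :: Y) = form C (star a * h * b) (x :: X) (y :: Y) := by
  have e : star (a * x) * h * (b * y) = star x * (star a * h * b) * y := by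
    rw [star_mul]; noncomm_ring
  rcases X with _ | ⟨x', X⟩ <;> rcases Y with _ | ⟨y', Y⟩
  · rw [form, form, e]
  · simp [form]
  · simp [form]
  · rw [form, form, e]

/-- the images of the elementary tensors under left multiplication -/
def lw {H : Type} [Zero H] (vec : List A → H) (b : A) : List A → H
  | [] => 0
  | x :: X => vec ((b * x) :: X)

/-- the images of the elementary tensors under creation -/
def cw {H : Type} [Zero H] (vec : List A → H) : List A → H
  | [] => 0
  | x :: X => vec (1 :: x :: X)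

end F4

open F4 in
theorem leftSys (hK1 : KolStmt) (hK2 : ExtStmt) (h1 : FormHermStmt) (h2 : FormPosStmt) :
    LeftSysStmt := by
  intro A _ _ _ _ T C hdom
  obtain ⟨H, _, _, _, vec, hin, hd⟩ := hK1 (List A) (form C 1)
    (by
      intro X Y
      have h := h1 A T C 1 X Y
      rwa [star_one] at h)
    (by
      intro n _ X c
      exact h2 A T C n X c)
  have hnil : vec [] = 0 := by
    rw [← inner_self_eq_zero (𝕜 := ℂ), hin, form_nil_left]
  have hlw : ∀ (b : A) (X Y : List A), ⟪lw vec b X, lw vec b Y⟫_ℂ = form C (star b * b) X Y := by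
    intro b X Y
    rcases X with _ | ⟨x, X⟩
    · rw [lw, inner_zero_left, form_nil_left]
    · rcases Y with _ | ⟨y, Y⟩
      · rw [lw, lw, inner_zero_right, form_nil_right]
      · rw [lw, lw, hin, form_mul, mul_one]
  have hcw : ∀ (X Y : List A), ⟪cw vec X, cw vec Y⟫_ℂ = form C 1 X Y := by
    intro X Y
    rcases X with _ | ⟨x, X⟩
    · rw [cw, inner_zero_left, form_nil_left]
    · rcases Y with _ | ⟨y, Y⟩
      · rw [cw, cw, inner_zero_right, form_nil_right]
      · rw [cw, cw, hin, form, star_one, one_mul, one_mul, C.E_one]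
  -- left multiplication
  have hlam : ∀ a : A, ∃ L : H →L[ℂ] H, ∀ X, L (vec X) = lw vec a X := by
    intro a
    obtain ⟨κ, l, hl⟩ := hdom a
    refine hK2 H H (List A) vec (lw vec a) (√|κ|) hd ?_
    intro n _ s c
    have hsq : ∀ b : A, ((‖∑ i, c i • lw vec b (s i)‖ ^ 2 : ℝ) : ℂ) =
        ∑ i, ∑ j, (starRingEnd ℂ) (c i) * c j * form C (star b * b) (s i) (s j) := by
      intro b
      rw [norm_sum_sq]
      simp only [hlw]
    have hv : ((‖∑ i, c i • vec (s i)‖ ^ 2 : ℝ) : ℂ) =
        ∑ i, ∑ j, (starRingEnd ℂ) (c i) * c j * form C 1 (s i) (s j) := by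
      rw [norm_sum_sq]
      simp only [hin]
    have hsum : ((‖∑ i, c i • lw vec a (s i)‖ ^ 2 +
        (l.map fun v => ‖∑ i, c i • lw vec v (s i)‖ ^ 2).sum : ℝ) : ℂ) =
        ((κ * ‖∑ i, c i • vec (s i)‖ ^ 2 : ℝ) : ℂ) := by
      rw [Complex.ofReal_add, Complex.ofReal_mul, hsq, hv]
      have e1 : (((l.map fun v => ‖∑ i, c i • lw vec v (s i)‖ ^ 2).sum : ℝ) : ℂ) =
          ∑ i, ∑ j, (starRingEnd ℂ) (c i) * c j *
            form C (l.map fun v => star v * v).sum (s i) (s j) := by
        clear hl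
        induction l with
        | nil => simp [form_zero]
        | cons v l ih =>
          rw [List.map_cons, List.sum_cons, Complex.ofReal_add, ih, hsq, List.map_cons,
            List.sum_cons, ← Finset.sum_add_distrib]
          refine Finset.sum_congr rfl fun i _ => ?_
          rw [← Finset.sum_add_distrib]
          refine Finset.sum_congr rfl fun j _ => ?_
          rw [form_add, mul_add]
      rw [e1, ← Finset.sum_add_distrib, Finset.mul_sum]
      refine Finset.sum_congr rfl fun i _ => ?_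
      rw [← Finset.sum_add_distrib, Finset.mul_sum]
      refine Finset.sum_congr rfl fun j _ => ?_
      rw [← mul_add, ← form_add, hl, form_smul]
      ring
    have hsum' := Complex.ofReal_injective hsum
    have hnn : 0 ≤ (l.map fun v => ‖∑ i, c i • lw vec v (s i)‖ ^ 2).sum := by
      apply List.sum_nonneg
      intro x hx
      obtain ⟨v, _, rfl⟩ := List.mem_map.1 hx
      positivity
    have hle : ‖∑ i, c i • lw vec a (s i)‖ ^ 2 ≤ |κ| * ‖∑ i, c i • vec (s i)‖ ^ 2 := by
      have h3 : κ * ‖∑ i, c i • vec (s i)‖ ^ 2 ≤ |κ| * ‖∑ i, c i • vec (s i)‖ ^ 2 :=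
        mul_le_mul_of_nonneg_right (le_abs_self κ) (sq_nonneg _)
      linarith
    have h4 := Real.sqrt_le_sqrt hle
    rwa [Real.sqrt_sq (norm_nonneg _), Real.sqrt_mul (abs_nonneg _),
      Real.sqrt_sq (norm_nonneg _)] at h4
  -- creation
  have hcr : ∃ L : H →L[ℂ] H, ∀ X, L (vec X) = cw vec X := by
    refine hK2 H H (List A) vec (cw vec) 1 hd ?_
    intro n _ s c
    have e : ‖∑ i, c i • cw vec (s i)‖ ^ 2 = ‖∑ i, c i • vec (s i)‖ ^ 2 := by
      apply Complex.ofReal_injective
      rw [norm_sum_sq, norm_sum_sq]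
      simp only [hcw, hin]
    rw [one_mul]
    exact le_of_eq ((sq_eq_sq₀ (norm_nonneg _) (norm_nonneg _)).1 e)
  choose lam hlamv using hlam
  obtain ⟨cr, hcrv⟩ := hcr
  have hadj1 : ∀ x, ContinuousLinearMap.adjoint cr (vec [x]) = 0 := by
    intro x
    refine eq_of_test hd fun Z => ?_
    rw [ContinuousLinearMap.adjoint_inner_right, hcrv, inner_zero_right]
    rcases Z with _ | ⟨z, Z⟩
    · rw [cw, inner_zero_left]
    · rw [cw, hin, form]
      all_goals simp
  have hadj2 : ∀ x y X, ContinuousLinearMap.adjoint cr (vec (x :: y :: X)) =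
      vec ((C.E x * y) :: X) := by
    intro x y X
    refine eq_of_test hd fun Z => ?_
    rw [ContinuousLinearMap.adjoint_inner_right, hcrv]
    rcases Z with _ | ⟨z, Z⟩
    · rw [cw, inner_zero_left, hnil, inner_zero_left]
    · have h5 := form_mul C 1 1 (C.E x) z y Z X
      rw [one_mul, star_one, one_mul, one_mul] at h5
      rw [cw, hin, hin, h5, form, star_one, one_mul, one_mul]
  exact ⟨{
    H := H
    vec := vec
    inner_vec := hin
    dense := hd
    lam := lam
    D := cr + ContinuousLinearMap.adjoint cr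
    lam_vec := fun a x X => by rw [hlamv, lw]
    D_one := fun x => by
      rw [_root_.add_apply, hadj1, hcrv, cw, add_zero]
    D_two := fun x y X => by
      rw [_root_.add_apply, hadj2, hcrv, cw]
    lam_star := fun a => by
      rw [ContinuousLinearMap.star_eq_adjoint]
      refine ContinuousLinearMap.ext_on
        (Submodule.dense_iff_topologicalClosure_eq_top.2 hd) ?_
      rintro _ ⟨Y, rfl⟩
      refine eq_of_test hd fun X => ?_
      rw [ContinuousLinearMap.adjoint_inner_right, hlamv, hlamv]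
      rcases X with _ | ⟨x, X⟩
      · rw [lw, inner_zero_left, hnil, inner_zero_left]
      · rcases Y with _ | ⟨y, Y⟩
        · rw [lw, lw, hnil, inner_zero_right, inner_zero_right]
        · have h5 := form_mul C 1 1 (star a) x y X Y
          have h6 := form_mul C 1 a 1 x y X Y
          rw [one_mul, star_one, one_mul, one_mul] at h5
          rw [one_mul, mul_one, mul_one] at h6
          rw [lw, lw, hin, hin, h5, h6]
    D_star := by
      rw [star_add, ContinuousLinearMap.star_eq_adjoint, ContinuousLinearMap.star_eq_adjoint,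
        ContinuousLinearMap.adjoint_adjoint, add_comm] }⟩

end

end MP8a6869

end

section

/-!
# MP_8a6869_an: [F5] the right operators
-/

namespace MP8a6869

open scoped InnerProductSpace ComplexOrder

noncomputable section

namespace F5

section Conj

variable {H : Type} [NormedAddCommGroup H] [InnerProductSpace ℂ H] [CompleteSpace H]

/-- a conjugate linear isometry as a continuous semilinear map -/
def JL (J : H → H) (hadd : ∀ x y, J (x + y) = J x + J y)
    (hsmul : ∀ (c : ℂ) (x), J (c • x) = (starRingEnd ℂ) c • J x)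
    (hin : ∀ x y, ⟪J x, J y⟫_ℂ = ⟪y, x⟫_ℂ) : H →L⋆[ℂ] H :=
  LinearMap.mkContinuous
    { toFun := J, map_add' := hadd, map_smul' := hsmul } 1 (by
      intro x
      change ‖J x‖ ≤ 1 * ‖x‖
      have h := hin x x
      rw [inner_self_eq_norm_sq_to_K, inner_self_eq_norm_sq_to_K] at h
      have h' : ‖J x‖ ^ 2 = ‖x‖ ^ 2 := by exact_mod_cast h
      rw [one_mul]
      exact le_of_eq ((sq_eq_sq₀ (norm_nonneg _) (norm_nonneg _)).1 h'))

/-- conjugation by `J` -/
def cj (J : H →L⋆[ℂ] H) (T : H →L[ℂ] H) : H →L[ℂ] H := J.comp (T.comp J)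

omit [CompleteSpace H] in
theorem cj_apply (J : H →L⋆[ℂ] H) (T : H →L[ℂ] H) (x : H) : cj J T x = J (T (J x)) := rfl

omit [CompleteSpace H] in
theorem cj_mul (J : H →L⋆[ℂ] H) (hJJ : ∀ x, J (J x) = x) (S T : H →L[ℂ] H) :
    cj J (S * T) = cj J S * cj J T := by
  ext x
  change J ((S * T) (J x)) = J (S (J (J (T (J x)))))
  rw [hJJ]
  rfl

omit [CompleteSpace H] in
theorem cj_cj (J : H →L⋆[ℂ] H) (hJJ : ∀ x, J (J x) = x) (T : H →L[ℂ] H) :
    cj J (cj J T) = T := by
  ext x
  change J (J (T (J (J x)))) = T x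
  rw [hJJ, hJJ]

theorem cj_star (J : H →L⋆[ℂ] H) (hJJ : ∀ x, J (J x) = x)
    (hin : ∀ x y, ⟪J x, J y⟫_ℂ = ⟪y, x⟫_ℂ) (T : H →L[ℂ] H) :
    star (cj J T) = cj J (star T) := by
  rw [ContinuousLinearMap.star_eq_adjoint]
  symm
  rw [ContinuousLinearMap.eq_adjoint_iff]
  intro x y
  rw [cj_apply, cj_apply, ContinuousLinearMap.star_eq_adjoint]
  calc ⟪J ((ContinuousLinearMap.adjoint T) (J x)), y⟫_ℂ
      = ⟪J ((ContinuousLinearMap.adjoint T) (J x)), J (J y)⟫_ℂ := by rw [hJJ]
    _ = ⟪J y, (ContinuousLinearMap.adjoint T) (J x)⟫_ℂ := hin _ _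
    _ = ⟪T (J y), J x⟫_ℂ := ContinuousLinearMap.adjoint_inner_right _ _ _
    _ = ⟪J (J x), J (T (J y))⟫_ℂ := (hin _ _).symm
    _ = ⟪x, J (T (J y))⟫_ℂ := by rw [hJJ]

end Conj

theorem rs_rs {A : Type} [Ring A] [StarRing A] (X : List A) : revStar (revStar X) = X := by
  simp [revStar, List.map_reverse, Function.comp_def]

theorem rs_app {A : Type} [Ring A] [StarRing A] (X Y : List A) :
    revStar (X ++ Y) = revStar Y ++ revStar X := by
  simp [revStar]

theorem rs_cons {A : Type} [Ring A] [StarRing A] (x : A) (X : List A) :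
    revStar (x :: X) = revStar X ++ [star x] := by
  simp [revStar]

theorem rs_nil {A : Type} [Ring A] [StarRing A] : revStar ([] : List A) = [] := by
  simp [revStar]

theorem cases_end {A : Type} (X : List A) :
    X = [] ∨ (∃ x, X = [x]) ∨ ∃ M z w, X = M ++ [z, w] := by
  rcases h : X.reverse with _ | ⟨w, _ | ⟨z, N⟩⟩
  · left; exact List.reverse_eq_nil_iff.1 h
  · right; left
    exact ⟨w, by rw [← List.reverse_reverse X, h]; rfl⟩
  · right; right
    exact ⟨N.reverse, z, w, by rw [← List.reverse_reverse X, h]; simp⟩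

theorem cases_end1 {A : Type} (X : List A) :
    X = [] ∨ ∃ M z, X = M ++ [z] := by
  rcases h : X.reverse with _ | ⟨w, N⟩
  · left; exact List.reverse_eq_nil_iff.1 h
  · right
    exact ⟨N.reverse, w, by rw [← List.reverse_reverse X, h]; simp⟩

end F5

open F5 in
theorem fockSys (hK3 : ExtConjStmt) (h3 : FormRevStmt) : FockSysStmt := by
  intro A _ _ _ _ T C L
  obtain ⟨J0, hadd, hsmul, hin0, hvec0⟩ := hK3 L.H (List A) L.vec (fun X => L.vec (revStar X))
    L.dense (by
      intro s t
      rw [L.inner_vec, L.inner_vec]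
      exact h3 A T C s t)
  obtain ⟨J, hJ⟩ : ∃ J : L.H →L⋆[ℂ] L.H, ∀ x, J x = J0 x :=
    ⟨JL J0 hadd hsmul hin0, fun x => rfl⟩
  have hin : ∀ x y, ⟪J x, J y⟫_ℂ = ⟪y, x⟫_ℂ := by
    intro x y; rw [hJ, hJ]; exact hin0 x y
  have hvec : ∀ X, J (L.vec X) = L.vec (revStar X) := by
    intro X; rw [hJ]; exact hvec0 X
  have hd : Dense (Submodule.span ℂ (Set.range L.vec) : Set L.H) :=
    Submodule.dense_iff_topologicalClosure_eq_top.2 L.dense
  have hJJ : ∀ x, J (J x) = x := by
    have h : (J.comp J : L.H →L[ℂ] L.H) = ContinuousLinearMap.id ℂ L.H := by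
      refine ContinuousLinearMap.ext_on hd ?_
      rintro _ ⟨X, rfl⟩
      change J (J (L.vec X)) = L.vec X
      rw [hvec, hvec, rs_rs]
    intro x
    exact congrArg (fun f : L.H →L[ℂ] L.H => f x) h
  have hext : ∀ S S' : L.H →L[ℂ] L.H, (∀ X, S (L.vec X) = S' (L.vec X)) → S = S' := by
    intro S S' h
    refine ContinuousLinearMap.ext_on hd ?_
    rintro _ ⟨X, rfl⟩
    exact h X
  have hnil : L.vec [] = 0 := by
    rw [← inner_self_eq_zero (𝕜 := ℂ), L.inner_vec, form]
    all_goals simp
  -- the operators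
  let rho : A → L.H →L[ℂ] L.H := fun a => cj J (L.lam (star a))
  let Dr : L.H →L[ℂ] L.H := cj J L.D
  have rho_vec : ∀ a x X, rho a (L.vec (X ++ [x])) = L.vec (X ++ [x * a]) := by
    intro a x X
    change J (L.lam (star a) (J (L.vec (X ++ [x])))) = _
    rw [hvec, rs_app, rs_cons, rs_nil, List.nil_append, List.singleton_append, L.lam_vec, hvec,
      rs_cons, rs_rs, star_mul, star_star, star_star]
  have Dr_one : ∀ x, Dr (L.vec [x]) = L.vec [x, 1] := by
    intro x
    change J (L.D (J (L.vec [x]))) = _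
    rw [hvec, rs_cons, rs_nil, List.nil_append, L.D_one, hvec]
    simp [revStar]
  have Dr_two : ∀ x y X, Dr (L.vec (X ++ [x, y])) =
      L.vec (X ++ [x, y, 1]) + L.vec (X ++ [x * C.E y]) := by
    intro x y X
    change J (L.D (J (L.vec (X ++ [x, y])))) = _
    have e1 : revStar (X ++ [x, y]) = star y :: star x :: revStar X := by simp [revStar]
    rw [hvec, e1, L.D_two, map_add, hvec, hvec, rs_cons, rs_cons, rs_cons, rs_cons, rs_rs]
    simp [C.E_star]
  have rho_star : ∀ a, star (rho a) = rho (star a) := by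
    intro a
    change star (cj J (L.lam (star a))) = cj J (L.lam (star (star a)))
    rw [cj_star J hJJ hin, L.lam_star]
  have Dr_star : star Dr = Dr := by
    change star (cj J L.D) = cj J L.D
    rw [cj_star J hJJ hin, L.D_star]
  have lam_rho : ∀ a b, L.lam a * rho b = rho b * L.lam a := by
    intro a b
    refine hext _ _ fun X => ?_
    change L.lam a (rho b (L.vec X)) = rho b (L.lam a (L.vec X))
    rcases X with _ | ⟨x, X⟩
    · rw [hnil, map_zero, map_zero, map_zero]
    · rcases cases_end1 X with rfl | ⟨M, z, rfl⟩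
      · have h1 := rho_vec b x []
        have h2 := rho_vec b (a * x) []
        rw [List.nil_append] at h1 h2
        rw [h1, L.lam_vec, h2, List.nil_append, List.nil_append, L.lam_vec, mul_assoc]
      · have h1 := rho_vec b z (x :: M)
        have h2 := rho_vec b z ((a * x) :: M)
        rw [List.cons_append, List.cons_append] at h1 h2
        rw [h1, L.lam_vec, L.lam_vec, h2]
  have lam_Dr : ∀ a, L.lam a * Dr = Dr * L.lam a := by
    intro a
    refine hext _ _ fun X => ?_
    change L.lam a (Dr (L.vec X)) = Dr (L.lam a (L.vec X))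
    rcases X with _ | ⟨x, X⟩
    · rw [hnil, map_zero, map_zero, map_zero]
    · rcases cases_end X with rfl | ⟨y, rfl⟩ | ⟨M, z, w, rfl⟩
      · rw [Dr_one, L.lam_vec, L.lam_vec, Dr_one]
      · have h1 := Dr_two x y []
        have h2 := Dr_two (a * x) y []
        simp only [List.nil_append] at h1 h2
        rw [h1, map_add, L.lam_vec, L.lam_vec, L.lam_vec, h2, mul_assoc]
      · have h1 := Dr_two z w (x :: M)
        have h2 := Dr_two z w ((a * x) :: M)
        simp only [List.cons_append] at h1 h2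
        rw [h1, map_add, L.lam_vec, L.lam_vec, L.lam_vec, h2]
  have D_rho : ∀ b, L.D * rho b = rho b * L.D := by
    intro b
    have h := congrArg (cj J) (lam_Dr (star b))
    rw [cj_mul J hJJ, cj_mul J hJJ] at h
    change cj J (L.lam (star b)) * cj J (cj J L.D) = cj J (cj J L.D) * cj J (L.lam (star b)) at h
    rw [cj_cj J hJJ] at h
    exact h.symm
  have D_Dr : L.D * Dr = Dr * L.D := by
    refine hext _ _ fun X => ?_
    change L.D (Dr (L.vec X)) = Dr (L.D (L.vec X))
    rcases X with _ | ⟨x, _ | ⟨y, X⟩⟩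
    · rw [hnil, map_zero, map_zero, map_zero]
    · have h1 := Dr_two 1 x []
      simp only [List.nil_append] at h1
      rw [Dr_one, L.D_one, L.D_two, h1, mul_one, one_mul]
    · rcases cases_end X with rfl | ⟨z, rfl⟩ | ⟨M, z, w, rfl⟩
      · have h1 := Dr_two x y []
        have h2 := Dr_two x y [1]
        simp only [List.nil_append, List.cons_append] at h1 h2
        rw [h1, map_add, L.D_two, L.D_one, L.D_two, map_add, h2, Dr_one]
        abel
      · have h1 := Dr_two y z [x]
        have h2 := Dr_two y z [1, x]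
        have h3 := Dr_two (C.E x * y) z []
        simp only [List.nil_append, List.cons_append] at h1 h2 h3
        rw [h1, map_add, L.D_two, L.D_two, L.D_two, map_add, h2, h3, mul_assoc]
        abel
      · have h1 := Dr_two z w (x :: y :: M)
        have h2 := Dr_two z w (1 :: x :: y :: M)
        have h3 := Dr_two z w ((C.E x * y) :: M)
        simp only [List.cons_append] at h1 h2 h3
        rw [h1, map_add, L.D_two, L.D_two, L.D_two, map_add, h2, h3]
        abel
  exact ⟨{ L with
    rho := rho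
    Dr := Dr
    rho_vec := rho_vec
    Dr_one := Dr_one
    Dr_two := Dr_two
    rho_star := rho_star
    Dr_star := Dr_star
    lam_rho := lam_rho
    lam_Dr := lam_Dr
    D_rho := D_rho
    D_Dr := D_Dr }⟩

end

end MP8a6869

end

section

/-!
# MP_8a6869_an, item F6: the vacuum state is tracial and the vacuum vector is separating
-/

namespace MP8a6869

open scoped InnerProductSpace ComplexOrder

noncomputable section

namespace F6

section Core

variable {H : Type} [NormedAddCommGroup H] [InnerProductSpace ℂ H] [CompleteSpace H] {I : Type}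

/-- The product of the operators of a word. -/
def W (l : I → H →L[ℂ] H) (s : List I) : H →L[ℂ] H := (s.map l).prod

omit [CompleteSpace H] in
theorem mulA (S T : H →L[ℂ] H) (v : H) : (S * T) v = S (T v) := rfl

omit [CompleteSpace H] in
theorem W_nil (l : I → H →L[ℂ] H) : W l [] = 1 := rfl

omit [CompleteSpace H] in
theorem W_cons (l : I → H →L[ℂ] H) (i : I) (s : List I) : W l (i :: s) = l i * W l s := by
  simp [W]

omit [CompleteSpace H] in
theorem W_append (l : I → H →L[ℂ] H) (s t : List I) : W l (s ++ t) = W l s * W l t := by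
  simp [W]

theorem star_W (l : I → H →L[ℂ] H) (si : I → I) (hl : ∀ i, star (l i) = l (si i)) (s : List I) :
    star (W l s) = W l (s.reverse.map si) := by
  induction s with
  | nil => simp [W_nil]
  | cons i s ih =>
    rw [W_cons, star_mul, ih, hl, List.reverse_cons, List.map_append, W_append]
    simp [W]

omit [CompleteSpace H] in
theorem comm_W (r : I → H →L[ℂ] H) (x : H →L[ℂ] H) (hx : ∀ i, r i * x = x * r i) (s : List I) :
    W r s * x = x * W r s := by
  induction s with
  | nil => simp [W_nil]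
  | cons i s ih => rw [W_cons, mul_assoc, ih, ← mul_assoc, hx, mul_assoc]

omit [CompleteSpace H] in
theorem W_Om (l r : I → H →L[ℂ] H) (Om : H) (hc : ∀ i j, l i * r j = r j * l i)
    (h0 : ∀ i, l i Om = r i Om) (s : List I) : W l s Om = W r s.reverse Om := by
  induction s with
  | nil => rfl
  | cons i s ih =>
    rw [W_cons, mulA, ih, List.reverse_cons, W_append]
    have h1 : l i * W r s.reverse = W r s.reverse * l i :=
      (comm_W r (l i) (fun j => (hc i j).symm) s.reverse).symm
    have h2 : l i (W r s.reverse Om) = W r s.reverse (l i Om) := by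
      rw [← mulA, h1, mulA]
    rw [h2, h0, mulA]
    simp [W]

theorem core (hK3 : ExtConjStmt) (l r : I → H →L[ℂ] H) (si : I → I) (Om : H)
    (hl : ∀ i, star (l i) = l (si i)) (hr : ∀ i, star (r i) = r (si i))
    (hc : ∀ i j, l i * r j = r j * l i) (h0 : ∀ i, l i Om = r i Om)
    (hd : (Submodule.span ℂ (Set.range fun s : List I => W l s Om)).topologicalClosure = ⊤) :
    (∀ x y : H →L[ℂ] H, (∀ i, r i * x = x * r i) → (∀ i, r i * y = y * r i) →
      ⟪Om, x (y Om)⟫_ℂ = ⟪Om, y (x Om)⟫_ℂ) ∧
    (∀ x : H →L[ℂ] H, (∀ i, r i * x = x * r i) → x Om = 0 → x = 0) := by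
  have hz : ∀ v : H, (∀ s : List I, ⟪v, W l s Om⟫_ℂ = 0) → v = 0 := by
    intro v hv
    have h1 : v ∈ (Submodule.span ℂ (Set.range fun s : List I => W l s Om))ᗮ := by
      rw [Submodule.mem_orthogonal']
      intro u hu
      induction hu using Submodule.span_induction with
      | mem u hu =>
        obtain ⟨s, rfl⟩ := hu
        exact hv s
      | zero => simp
      | add a b _ _ ha hb => rw [inner_add_right, ha, hb, add_zero]
      | smul c a _ ha => rw [inner_smul_right, ha, mul_zero]
    rw [Submodule.topologicalClosure_eq_top_iff] at hd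
    rw [hd] at h1
    exact (Submodule.mem_bot ℂ).1 h1
  -- adjoints of words on the vacuum
  have hsW : ∀ s : List I, star (W l s) Om = star (W r s.reverse) Om := by
    intro s
    rw [star_W l si hl, star_W r si hr, W_Om l r Om hc h0, List.reverse_reverse, ← List.map_reverse,
      List.reverse_reverse]
  have htr : ∀ s t : List I, ⟪star (W l s) Om, star (W l t) Om⟫_ℂ = ⟪W l t Om, W l s Om⟫_ℂ := by
    intro s t
    rw [hsW s]
    have h1 : W r s.reverse * star (W l t) = star (W l t) * W r s.reverse := by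
      apply comm_W
      intro i
      rw [star_W l si hl]
      exact (comm_W l (r i) (fun j => hc j i) _).symm
    rw [ContinuousLinearMap.star_eq_adjoint, ContinuousLinearMap.adjoint_inner_left,
      ← mulA (W r s.reverse) (star (W l t)), h1, mulA,
      ContinuousLinearMap.star_eq_adjoint, ContinuousLinearMap.adjoint_inner_right,
      ← W_Om l r Om hc h0]
  obtain ⟨J, -, -, hJ, hJw⟩ := hK3 H (List I) (fun s => W l s Om) (fun s => star (W l s) Om) hd
    (fun s t => htr s t)
  have hJx : ∀ x : H →L[ℂ] H, (∀ i, r i * x = x * r i) → J (x Om) = star x Om := by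
    intro x hx
    rw [← sub_eq_zero]
    apply hz
    intro s
    rw [inner_sub_left, sub_eq_zero]
    have h1 : W l s Om = J (star (W l s) Om) := by
      rw [star_W l si hl]
      rw [hJw (s.reverse.map si), ← star_W l si hl, star_star]
    have h2 : ⟪star x Om, W l s Om⟫_ℂ = ⟪star (W l s) Om, x Om⟫_ℂ := by
      rw [ContinuousLinearMap.star_eq_adjoint, ContinuousLinearMap.adjoint_inner_left,
        W_Om l r Om hc h0, ← mulA x (W r s.reverse), ← comm_W r x hx,
        mulA, hsW, ContinuousLinearMap.star_eq_adjoint,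
        ContinuousLinearMap.adjoint_inner_left]
    rw [h2]
    conv_lhs => rw [h1]
    rw [hJ]
  have hst : ∀ y : H →L[ℂ] H, (∀ i, r i * y = y * r i) → ∀ i, r i * star y = star y * r i := by
    intro y hy i
    have h1 : r i = star (r (si i)) := by rw [← hr, star_star]
    rw [h1, ← star_mul, ← star_mul, hy]
  constructor
  · intro x y hx hy
    have h1 : y Om = J (star y Om) := by rw [hJx _ (hst y hy), star_star]
    have h2 : ⟪Om, x (y Om)⟫_ℂ = ⟪star x Om, y Om⟫_ℂ := by
      rw [ContinuousLinearMap.star_eq_adjoint, ContinuousLinearMap.adjoint_inner_left]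
    have h3 : ⟪Om, y (x Om)⟫_ℂ = ⟪star y Om, x Om⟫_ℂ := by
      rw [ContinuousLinearMap.star_eq_adjoint, ContinuousLinearMap.adjoint_inner_left]
    rw [h2, h3, ← hJx x hx, h1, hJ]
  · intro x hx hxO
    have h1 : star x = 0 := by
      ext z
      rw [zero_apply]
      apply hz
      intro s
      rw [ContinuousLinearMap.star_eq_adjoint, ContinuousLinearMap.adjoint_inner_left,
        W_Om l r Om hc h0, ← mulA x (W r s.reverse), ← comm_W r x hx,
        mulA, hxO, map_zero, inner_zero_right]
    rw [← star_star x, h1, star_zero]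

end Core

section Fock

variable {A : Type} [Ring A] [StarRing A] [Algebra ℂ A] {T : TrAlg A} {C : Cov T}

/-- The left operators. -/
def lo (F : FockSys C) : Option A → F.H →L[ℂ] F.H
  | none => F.D
  | some a => F.lam a

/-- The right operators. -/
def ro (F : FockSys C) : Option A → F.H →L[ℂ] F.H
  | none => F.Dr
  | some a => F.rho a

/-- The star of an index. -/
def si : Option A → Option A
  | none => none
  | some a => some (star a)

theorem vec_nil (F : FockSys C) : F.vec [] = 0 := by
  have h := F.inner_vec [] []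
  rw [form] at h
  · exact inner_self_eq_zero.1 h
  · simp
  · simp

theorem lam_one (F : FockSys C) (x : A) : F.vec [x] = F.lam x F.Om := by
  rw [FockSys.Om, F.lam_vec, mul_one]

theorem dense (F : FockSys C) :
    (Submodule.span ℂ (Set.range fun s : List (Option A) => W (lo F) s F.Om)).topologicalClosure
      = ⊤ := by
  set V := Submodule.span ℂ (Set.range fun s : List (Option A) => W (lo F) s F.Om) with hV
  have hinv : ∀ i, ∀ v ∈ V, lo F i v ∈ V := by
    intro i v hv
    induction hv using Submodule.span_induction with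
    | mem v hv =>
      obtain ⟨s, rfl⟩ := hv
      apply Submodule.subset_span
      exact ⟨i :: s, by simp [W_cons]⟩
    | zero => rw [map_zero]; exact V.zero_mem
    | add a b _ _ ha hb => rw [map_add]; exact V.add_mem ha hb
    | smul c a _ ha => rw [map_smul]; exact V.smul_mem c ha
  have hOm : F.Om ∈ V := Submodule.subset_span ⟨[], by simp [W_nil]⟩
  have hvec : ∀ (n : ℕ) (X : List A), X.length ≤ n → F.vec X ∈ V := by
    intro n
    induction n with
    | zero =>
      intro X hX
      have : X = [] := List.length_eq_zero_iff.1 (Nat.le_zero.1 hX)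
      rw [this, vec_nil]
      exact V.zero_mem
    | succ n ih =>
      intro X hX
      match X, hX with
      | [], _ => rw [vec_nil]; exact V.zero_mem
      | [x], _ => rw [lam_one]; exact hinv (some x) _ hOm
      | [x, y], _ =>
        have h1 : F.vec [x, y] = F.lam x (F.D (F.vec [y])) := by
          rw [F.D_one, F.lam_vec, mul_one]
        rw [h1]
        refine hinv (some x) _ (hinv none _ ?_)
        rw [lam_one]
        exact hinv (some y) _ hOm
      | x :: y :: z :: X, hX =>
        have h1 : F.vec (x :: y :: z :: X) =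
            F.lam x (F.D (F.vec (y :: z :: X)) - F.vec ((C.E y * z) :: X)) := by
          rw [F.D_two, add_sub_cancel_right, F.lam_vec, mul_one]
        rw [h1]
        refine hinv (some x) _ (V.sub_mem (hinv none _ (ih _ ?_)) (ih _ ?_))
        · simp only [List.length_cons] at hX ⊢; omega
        · simp only [List.length_cons] at hX ⊢; omega
  have h1 : Submodule.span ℂ (Set.range F.vec) ≤ V := by
    rw [Submodule.span_le]
    rintro _ ⟨X, rfl⟩
    exact hvec _ X le_rfl
  rw [eq_top_iff, ← F.dense]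
  exact Submodule.topologicalClosure_mono h1

end Fock

end F6

theorem trac (hK3 : ExtConjStmt) : TracStmt := by
  intro A _ _ _ _ T C F
  have h := F6.core hK3 (F6.lo F) (F6.ro F) F6.si F.Om
    (by rintro (_ | a); exacts [F.D_star, F.lam_star a])
    (by rintro (_ | a); exacts [F.Dr_star, F.rho_star a])
    (by rintro (_ | a) (_ | b); exacts [F.D_Dr, F.D_rho b, F.lam_Dr a, F.lam_rho a b])
    (by
      rintro (_ | a)
      · change F.D (F.vec [1]) = F.Dr (F.vec [1])
        rw [F.D_one, F.Dr_one]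
      · change F.lam a (F.vec [1]) = F.rho a (F.vec [1])
        have h := F.rho_vec a 1 []
        simp only [List.nil_append, one_mul] at h
        rw [F.lam_vec, mul_one, h])
    (F6.dense F)
  have hm : ∀ x ∈ F.alg, ∀ i, F6.ro F i * x = x * F6.ro F i := by
    intro x hx
    have := F.mem_alg.1 hx
    rintro (_ | a)
    · exact this.2
    · exact this.1 a
  exact ⟨fun x hx y hy => h.1 x y (hm x hx) (hm y hy), fun x hx => h.2 x (hm x hx)⟩

end

end MP8a6869

end

section

/-!
# MP_8a6869_an, F8: bounded tracial functionals of `M_3(ℂ[G])`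
-/

namespace MP8a6869

open scoped InnerProductSpace ComplexOrder
open MonoidAlgebra Filter Topology

noncomputable section

theorem trA_single (G : Type) [Group G] (g : G) (m : M3) [Decidable (g = 1)] :
    (trA G).τ (single g m : AG G) = if g = 1 then trM3.τ m else 0 := by
  classical
  change trM3.τ ((single g m : AG G).coeff 1) = _
  rw [coeff_single, Finsupp.single_apply]
  by_cases h : g = 1
  · rw [if_pos h, if_pos h]
  · rw [if_neg h, if_neg h, map_zero]

theorem trM3_apply (m : M3) : trM3.τ m = (1 / 3 : ℂ) * ∑ i, m i i := by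
  change ((1 / 3 : ℝ) : ℂ) • ((TrAlg.c.mat (Fin 3)).τ m) = _
  rw [TrAlg.mat_apply, smul_eq_mul]
  push_cast
  rfl

theorem f8_conj (G : Type) [Group G] (f : AG G →ₗ[ℂ] ℂ)
    (hf : ∀ a x, f (a * x) = f (x * a)) (g h : G) (m : M3) :
    f (single (h * g * h⁻¹) m : AG G) = f (single g m) := by
  have e1 : (single (h * g * h⁻¹) m : AG G) = single h 1 * (single g m * single h⁻¹ 1) := by
    rw [single_mul_single, single_mul_single, one_mul, mul_one, mul_assoc]
  have e2 : (single g m * single h⁻¹ 1) * single h 1 = (single g m : AG G) := by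
    rw [single_mul_single, single_mul_single, mul_one, mul_one, mul_assoc, inv_mul_cancel,
      mul_one]
  rw [e1, hf, e2]

theorem f8_tau_sum (G : Type) [Group G] (t : Finset G) (m : M3) :
    (trA G).τ (star (∑ c ∈ t, (single c m : AG G)) * ∑ c ∈ t, (single c m : AG G)) =
      (t.card : ℂ) * trM3.τ (star m * m) := by
  classical
  rw [star_sum, Finset.sum_mul, map_sum]
  have key : ∀ c ∈ t, (trA G).τ (star (single c m : AG G) * ∑ c ∈ t, (single c m : AG G)) =
      trM3.τ (star m * m) := by
    intro c hc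
    rw [Finset.mul_sum, map_sum, Finset.sum_eq_single c]
    · rw [star_single_ma, single_mul_single, trA_single, if_pos (inv_mul_cancel c)]
    · intro c' _ hne
      rw [star_single_ma, single_mul_single, trA_single, if_neg]
      intro h
      exact hne (inv_mul_eq_one.1 h).symm
    · intro h; exact absurd hc h
  rw [Finset.sum_congr rfl key, Finset.sum_const, nsmul_eq_mul]

theorem f8_zero (G : Type) [Group G]
    (hG : ∀ g : G, g ≠ 1 → (Set.range fun h : G => h * g * h⁻¹).Infinite)
    (f : AG G →ₗ[ℂ] ℂ) (κ : ℝ) (hκ : ∀ x, ‖f x‖ ^ 2 ≤ κ * ((trA G).τ (star x * x)).re)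
    (hf : ∀ a x, f (a * x) = f (x * a)) (g : G) (hg : g ≠ 1) (m : M3) :
    f (single g m : AG G) = 0 := by
  by_contra hne
  have hpos : 0 < ‖f (single g m : AG G)‖ ^ 2 := by
    have := norm_pos_iff.2 hne
    positivity
  set K : ℝ := κ * (trM3.τ (star m * m)).re with hK
  have key : ∀ N : ℕ, 0 < N → (N : ℝ) * ‖f (single g m : AG G)‖ ^ 2 ≤ K := by
    intro N hN
    obtain ⟨t, ht, hcard⟩ := (hG g hg).exists_subset_card_eq N
    have h1 : f (∑ c ∈ t, (single c m : AG G)) = (N : ℂ) * f (single g m : AG G) := by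
      rw [map_sum]
      have : ∀ c ∈ t, f (single c m : AG G) = f (single g m : AG G) := by
        intro c hc
        obtain ⟨h, rfl⟩ := ht hc
        exact f8_conj G f hf g h m
      rw [Finset.sum_congr rfl this, Finset.sum_const, nsmul_eq_mul, hcard]
    have h2 := hκ (∑ c ∈ t, (single c m : AG G))
    rw [h1, f8_tau_sum, hcard, norm_mul, mul_pow, Complex.norm_natCast] at h2
    have h3 : ((N : ℂ) * trM3.τ (star m * m)).re = (N : ℝ) * (trM3.τ (star m * m)).re := by
      rw [Complex.mul_re]; simp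
    rw [h3] at h2
    have hN' : (0 : ℝ) < N := by exact_mod_cast hN
    have h4 : (N : ℝ) * ((N : ℝ) * ‖f (single g m : AG G)‖ ^ 2) ≤ (N : ℝ) * K := by
      rw [hK]; nlinarith [h2]
    exact le_of_mul_le_mul_left h4 hN'
  obtain ⟨N, hN⟩ := exists_nat_gt (K / ‖f (single g m : AG G)‖ ^ 2)
  rw [div_lt_iff₀ hpos] at hN
  have h5 := key (N + 1) (Nat.succ_pos N)
  push_cast at h5
  nlinarith

theorem f8_one (G : Type) [Group G] (f : AG G →ₗ[ℂ] ℂ)
    (hf : ∀ a x, f (a * x) = f (x * a)) (m : M3) :
    f (single 1 m : AG G) = f 1 * trM3.τ m := by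
  classical
  -- the functional on matrices
  have hadd : ∀ a b : M3, f (single 1 (a + b) : AG G) = f (single 1 a) + f (single 1 b) := by
    intro a b
    rw [single_add, map_add]
  have hsmul : ∀ (c : ℂ) (a : M3), f (single 1 (c • a) : AG G) = c * f (single 1 a) := by
    intro c a
    rw [← smul_single, map_smul, smul_eq_mul]
  let F : M3 →ₗ[ℂ] ℂ :=
    { toFun := fun a => f (single 1 a : AG G)
      map_add' := hadd
      map_smul' := hsmul }
  have hF : ∀ a b : M3, F (a * b) = F (b * a) := by
    intro a b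
    change f (single 1 (a * b) : AG G) = f (single 1 (b * a) : AG G)
    have e1 : (single 1 (a * b) : AG G) = single 1 a * single 1 b := by
      rw [single_mul_single, one_mul]
    have e2 : (single 1 (b * a) : AG G) = single 1 b * single 1 a := by
      rw [single_mul_single, one_mul]
    rw [e1, e2, hf]
  have hoff : ∀ i j : Fin 3, i ≠ j → F (Matrix.single i j 1) = 0 := by
    intro i j hij
    have e1 : (Matrix.single i j 1 : M3) = Matrix.single i i 1 * Matrix.single i j 1 := by
      rw [Matrix.single_mul_single_same, one_mul]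
    have e2 : (Matrix.single i j 1 * Matrix.single i i 1 : M3) = 0 := by
      rw [Matrix.single_mul_single_of_ne]
      exact hij.symm
    rw [e1, hF, e2, map_zero]
  have hdiag : ∀ i : Fin 3, F (Matrix.single i i 1) = F (Matrix.single 0 0 1) := by
    intro i
    have e1 : (Matrix.single i i 1 : M3) = Matrix.single i 0 1 * Matrix.single 0 i 1 := by
      rw [Matrix.single_mul_single_same, one_mul]
    have e2 : (Matrix.single 0 0 1 : M3) = Matrix.single 0 i 1 * Matrix.single i 0 1 := by
      rw [Matrix.single_mul_single_same, one_mul]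
    rw [e1, e2, hF]
  have hgen : ∀ a : M3, F a = (∑ i, a i i) * F (Matrix.single 0 0 1) := by
    intro a
    conv_lhs => rw [Matrix.matrix_eq_sum_single a]
    rw [map_sum, Finset.sum_mul]
    refine Finset.sum_congr rfl fun i _ => ?_
    rw [map_sum, Finset.sum_eq_single i]
    · have : (Matrix.single i i (a i i) : M3) = (a i i) • Matrix.single i i 1 := by
        rw [Matrix.smul_single, smul_eq_mul, mul_one]
      rw [this, map_smul, smul_eq_mul, hdiag]
    · intro j _ hj
      have : (Matrix.single i j (a i j) : M3) = (a i j) • Matrix.single i j 1 := by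
        rw [Matrix.smul_single, smul_eq_mul, mul_one]
      rw [this, map_smul, hoff i j hj.symm, smul_zero]
    · intro h; exact absurd (Finset.mem_univ _) h
  have h1 : f 1 = 3 * F (Matrix.single 0 0 1) := by
    have : f 1 = F 1 := rfl
    rw [this, hgen 1]
    simp
  have hm : f (single 1 m : AG G) = F m := rfl
  rw [hm, hgen m, h1, trM3_apply]
  ring

/-- [F8] -/
theorem l2f : L2FStmt := by
  intro G _ hG f hκ hf x
  classical
  obtain ⟨κ, hκ⟩ := hκ
  induction x using MonoidAlgebra.induction_linear with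
  | zero => rw [map_zero, map_zero, mul_zero]
  | add x y hx hy => rw [map_add, map_add, hx, hy, mul_add]
  | single g m =>
    by_cases hg : g = 1
    · subst hg
      rw [f8_one G f hf m, trA_single, if_pos rfl]
    · rw [f8_zero G hG f κ hκ hf g hg m, trA_single, if_neg hg, mul_zero]

end

end MP8a6869

end

section

/-!
# MP_8a6869_an, item F9 : the algebra of the Fock system is a II_1 factor
-/

namespace MP8a6869

open scoped InnerProductSpace ComplexOrder
open MonoidAlgebra Filter Topology

namespace ItemF9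

variable {A : Type} [Ring A] [StarRing A] [Algebra ℂ A] {T : TrAlg A} {C : Cov T}

theorem lam_Om (F : FockSys C) (a : A) : F.lam a F.Om = F.vec [a] := by
  rw [FockSys.Om, F.lam_vec, mul_one]

theorem rho_Om (F : FockSys C) (a : A) : F.rho a F.Om = F.vec [a] := by
  have := F.rho_vec a 1 []
  simpa [FockSys.Om] using this

theorem inner_one (F : FockSys C) (x y : A) : ⟪F.vec [x], F.vec [y]⟫_ℂ = T.τ (star x * y) := by
  rw [F.inner_vec, form, mul_one]

omit [Algebra ℂ A] in
theorem star_unitary_mul {G : Type} [Group G] (u : G →* unitary A) (g h : G) :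
    star (u g : A) * (u h : A) = (u (g⁻¹ * h) : A) := by
  rw [map_mul, map_inv]
  rfl

theorem center (F : FockSys C) (hs : F.Separating)
    (hcent : ∀ v : F.H, (∀ a, F.lam a v = F.rho a v) → ∃ c : ℂ, v = c • F.Om)
    (z : F.H →L[ℂ] F.H) (hz : z ∈ F.alg) (hz' : z ∈ F.alg.commutant) :
    ∃ c : ℂ, z = c • (1 : F.H →L[ℂ] F.H) := by
  have hz2 : ∀ y ∈ F.alg, y * z = z * y := fun y hy =>
    (VonNeumannAlgebra.mem_commutant_iff.1 hz') y hy
  have hrho := (F.mem_alg.1 hz).1
  obtain ⟨c, hc⟩ := hcent (z F.Om) (by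
    intro a
    have e1 : F.lam a (z F.Om) = z (F.lam a F.Om) := by
      have := hz2 _ (F.lam_mem a)
      exact DFunLike.congr_fun this F.Om
    have e2 : F.rho a (z F.Om) = z (F.rho a F.Om) := DFunLike.congr_fun (hrho a) F.Om
    rw [e1, e2, lam_Om, rho_Om])
  refine ⟨c, ?_⟩
  have hmem : z - c • (1 : F.H →L[ℂ] F.H) ∈ F.alg := by
    refine F.mem_alg.2 ⟨fun a => ?_, ?_⟩
    · rw [mul_sub, sub_mul, hrho a]
      simp
    · rw [mul_sub, sub_mul, (F.mem_alg.1 hz).2]
      simp
  have := hs _ hmem (by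
    show z F.Om - c • F.Om = 0
    rw [hc, sub_self])
  exact sub_eq_zero.1 this

theorem infinite (F : FockSys C) (h1 : T.τ 1 = 1) {G : Type} [Group G] [Infinite G]
    (u : G →* unitary A) (hu : ∀ g, g ≠ 1 → T.τ (u g : A) = 0) :
    ¬ FiniteDimensional ℂ F.alg.toStarSubalgebra := by
  intro hfd'
  let L : F.alg.toStarSubalgebra →ₗ[ℂ] F.H :=
    { toFun := fun x => (x : F.H →L[ℂ] F.H) F.Om
      map_add' := fun x y => rfl
      map_smul' := fun c x => rfl }
  let v : G → F.alg.toStarSubalgebra := fun g => ⟨F.lam (u g : A), F.lam_mem _⟩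
  have hon : Orthonormal ℂ (L ∘ v) := by
    classical
    rw [orthonormal_iff_ite]
    intro g h
    show ⟪F.lam (u g : A) F.Om, F.lam (u h : A) F.Om⟫_ℂ = _
    rw [lam_Om, lam_Om, inner_one, star_unitary_mul]
    by_cases hgh : g = h
    · rw [if_pos hgh, hgh, inv_mul_cancel, map_one]
      exact h1
    · rw [if_neg hgh]
      refine hu _ fun h0 => hgh ?_
      rw [inv_mul_eq_one] at h0
      exact h0
  have hli : LinearIndependent ℂ v := LinearIndependent.of_comp L hon.linearIndependent
  have := hli.finite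
  exact not_finite G

end ItemF9

open ItemF9 in
/-- [F9] -/
theorem fact : FactStmt := by
  intro A _ _ _ _ T C F h1 ht hs G _ _ u hu hcent
  exact ⟨center F hs hcent, infinite F h1 u hu⟩

end MP8a6869

end

section

/-!
# MP_8a6869_an, item K1: Kolmogorov decomposition of a positive kernel
-/

namespace MP8a6869

open scoped InnerProductSpace ComplexOrder
open Filter Topology

noncomputable section

theorem k1_complete {V : Type} [AddCommGroup V] [Module ℂ V] (cd : PreInnerProductSpace.Core ℂ V)
    {S : Type} (e : S → V) (K : S → S → ℂ) (hK : ∀ s t, cd.inner (e s) (e t) = K s t)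
    (hsp : Submodule.span ℂ (Set.range e) = ⊤) :
    ∃ (H : Type) (_ : NormedAddCommGroup H) (_ : InnerProductSpace ℂ H) (_ : CompleteSpace H)
      (vec : S → H), (∀ s t, ⟪vec s, vec t⟫_ℂ = K s t) ∧
        (Submodule.span ℂ (Set.range vec)).topologicalClosure = ⊤ := by
  letI : SeminormedAddCommGroup V :=
    @InnerProductSpace.Core.toSeminormedAddCommGroup ℂ V _ _ _ cd
  letI : InnerProductSpace ℂ V := InnerProductSpace.ofCore cd
  refine ⟨UniformSpace.Completion V, inferInstance, inferInstance, inferInstance,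
    fun s => (e s : UniformSpace.Completion V), ?_, ?_⟩
  · intro s t
    rw [UniformSpace.Completion.inner_coe]
    exact hK s t
  · rw [← Submodule.dense_iff_topologicalClosure_eq_top]
    have h1 : Submodule.span ℂ (Set.range fun s => (e s : UniformSpace.Completion V)) =
        LinearMap.range (UniformSpace.Completion.toComplL (𝕜 := ℂ) (E := V)).toLinearMap := by
      rw [LinearMap.range_eq_map, ← hsp, Submodule.map_span, ← Set.range_comp]
      rfl
    rw [h1]
    exact UniformSpace.Completion.denseRange_coe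

/-- The form on the free vector space. -/
def k1Form {S : Type} (K : S → S → ℂ) (c d : S →₀ ℂ) : ℂ :=
  c.sum fun s a => d.sum fun t b => (starRingEnd ℂ) a * b * K s t

/-- The core. -/
@[instance_reducible] def k1Core {S : Type} (K : S → S → ℂ) (h1 : ∀ s t, K t s = (starRingEnd ℂ) (K s t))
    (h2 : ∀ (n : Type) [Fintype n] (s : n → S) (c : n → ℂ),
      0 ≤ ∑ i, ∑ j, (starRingEnd ℂ) (c i) * c j * K (s i) (s j)) :
    PreInnerProductSpace.Core ℂ (S →₀ ℂ) where
  inner := k1Form K
  conj_inner_symm c d := by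
    unfold k1Form
    simp only [Finsupp.sum, map_sum, map_mul, Complex.conj_conj]
    rw [Finset.sum_comm]
    refine Finset.sum_congr rfl fun s _ => Finset.sum_congr rfl fun t _ => ?_
    rw [← h1 t s]
    ring
  re_inner_nonneg c := by
    have h3 := h2 c.support (fun s => (s : S)) (fun s => c s)
    have h4 : k1Form K c c = ∑ i : c.support, ∑ j : c.support,
        (starRingEnd ℂ) (c i) * c j * K i j := by
      unfold k1Form
      simp only [Finsupp.sum]
      rw [← Finset.sum_coe_sort]
      refine Finset.sum_congr rfl fun s _ => ?_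
      rw [← Finset.sum_coe_sort]
    rw [← h4] at h3
    exact (Complex.le_def.1 h3).1
  add_left c d x := by
    unfold k1Form
    rw [Finsupp.sum_add_index']
    · intro s
      simp [Finsupp.sum]
    · intro s a b
      simp only [Finsupp.sum, map_add, ← Finset.sum_add_distrib]
      refine Finset.sum_congr rfl fun t _ => ?_
      ring
  smul_left c x r := by
    unfold k1Form
    rw [Finsupp.sum_smul_index']
    · simp only [Finsupp.sum, smul_eq_mul, map_mul, Finset.mul_sum]
      refine Finset.sum_congr rfl fun s _ => Finset.sum_congr rfl fun t _ => ?_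
      ring
    · intro s
      simp [Finsupp.sum]

theorem kol : KolStmt := by
  intro S K h1 h2
  refine k1_complete (k1Core K h1 h2) (fun s => Finsupp.single s (1 : ℂ)) K ?_ ?_
  · intro s t
    change k1Form K (Finsupp.single s 1) (Finsupp.single t 1) = K s t
    unfold k1Form
    rw [Finsupp.sum_single_index, Finsupp.sum_single_index]
    · simp
    · simp
    · simp [Finsupp.sum]
  · rw [eq_top_iff]
    intro c _
    have hc : c = c.sum fun s a => a • Finsupp.single s (1 : ℂ) := by
      conv_lhs => rw [← Finsupp.sum_single c]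
      refine Finset.sum_congr rfl fun s _ => ?_
      simp
    rw [hc]
    exact Submodule.sum_mem _ fun s _ => Submodule.smul_mem _ _ (Submodule.subset_span ⟨s, rfl⟩)

end

end MP8a6869

end

section

/-!
# MP_8a6869_an, item K2: bounded operators are defined by their values on a total family
-/

namespace MP8a6869

open scoped InnerProductSpace ComplexOrder
open Filter Topology

noncomputable section

section K2

variable {H : Type} [NormedAddCommGroup H] [InnerProductSpace ℂ H] {S : Type}

theorem denseRange_lc {vec : S → H}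
    (hd : (Submodule.span ℂ (Set.range vec)).topologicalClosure = ⊤) :
    DenseRange (Finsupp.linearCombination ℂ vec) := by
  have h1 : Dense ((Submodule.span ℂ (Set.range vec) : Submodule ℂ H) : Set H) :=
    (Submodule.dense_iff_topologicalClosure_eq_top).2 hd
  have h2 : Set.range (Finsupp.linearCombination ℂ vec) =
      ((Submodule.span ℂ (Set.range vec) : Submodule ℂ H) : Set H) := by
    rw [← Finsupp.range_linearCombination]
    rfl
  rw [DenseRange, h2]
  exact h1

theorem lc_eq_sum (vec : S → H) (x : S →₀ ℂ) :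
    Finsupp.linearCombination ℂ vec x = ∑ i : x.support, x i • vec i := by
  rw [Finsupp.linearCombination_apply, Finsupp.sum, ← Finset.sum_coe_sort]

/-- The conjugate linear combination map. -/
def clc (w : S → H) : (S →₀ ℂ) →ₛₗ[starRingEnd ℂ] H where
  toFun x := x.sum fun s c => (starRingEnd ℂ) c • w s
  map_add' x y := by
    classical
    rw [Finsupp.sum_add_index']
    · intro a; simp
    · intro a b c; rw [map_add, add_smul]
  map_smul' c x := by
    rw [Finsupp.sum_smul_index']
    · rw [Finsupp.smul_sum]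
      refine Finsupp.sum_congr fun s _ => ?_
      rw [smul_eq_mul, map_mul, mul_smul]
    · intro a; simp

theorem clc_apply (w : S → H) (x : S →₀ ℂ) :
    clc w x = x.sum fun s c => (starRingEnd ℂ) c • w s := rfl

theorem inner_clc {vec w : S → H} (hw : ∀ s t, ⟪w s, w t⟫_ℂ = ⟪vec t, vec s⟫_ℂ)
    (x y : S →₀ ℂ) : ⟪clc w x, clc w y⟫_ℂ =
      ⟪Finsupp.linearCombination ℂ vec y, Finsupp.linearCombination ℂ vec x⟫_ℂ := by
  rw [clc_apply, clc_apply, Finsupp.linearCombination_apply, Finsupp.linearCombination_apply,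
    Finsupp.sum, Finsupp.sum, Finsupp.sum, Finsupp.sum, sum_inner, sum_inner]
  simp only [inner_sum, inner_smul_left, inner_smul_right, hw]
  rw [Finset.sum_comm]
  refine Finset.sum_congr rfl fun s _ => Finset.sum_congr rfl fun t _ => ?_
  rw [RingHomCompTriple.comp_apply]
  simp only [RingHom.id_apply]
  ring

end K2

/-- [K2] Bounded operators are defined by their values on a total family. -/
theorem ext : ExtStmt := by
  intro H H' _ _ _ _ _ _ S vec w κ hd hb
  refine ⟨(Finsupp.linearCombination ℂ w).extendOfNorm (Finsupp.linearCombination ℂ vec), ?_⟩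
  have hnorm : ∃ C : ℝ, ∀ x, ‖Finsupp.linearCombination ℂ w x‖ ≤
      C * ‖Finsupp.linearCombination ℂ vec x‖ := by
    refine ⟨κ, fun x => ?_⟩
    rw [lc_eq_sum, lc_eq_sum]
    exact hb x.support (fun i => (i : S)) fun i => x i
  intro s
  have h := LinearMap.extendOfNorm_eq (denseRange_lc hd) hnorm (Finsupp.single s 1)
  simpa using h

/-- [K3] The conjugate linear isometric version. -/
theorem extConj : ExtConjStmt := by
  intro H _ _ _ S vec w hd hw
  have hinner := fun x y => inner_clc (S := S) hw x y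
  have hn : ∀ x, ‖clc w x‖ = ‖Finsupp.linearCombination ℂ vec x‖ := by
    intro x
    have h := hinner x x
    rw [inner_self_eq_norm_sq_to_K, inner_self_eq_norm_sq_to_K] at h
    have h2 : ‖clc w x‖ ^ 2 = ‖Finsupp.linearCombination ℂ vec x‖ ^ 2 := by exact_mod_cast h
    exact (sq_eq_sq₀ (norm_nonneg _) (norm_nonneg _)).1 h2
  have hnorm : ∃ C : ℝ, ∀ x, ‖clc w x‖ ≤ C * ‖Finsupp.linearCombination ℂ vec x‖ :=
    ⟨1, fun x => by rw [one_mul, hn x]⟩
  have hdr := denseRange_lc hd
  set J : H →SL[starRingEnd ℂ] H := (clc w).extendOfNorm (Finsupp.linearCombination ℂ vec) with hJ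
  have hJe : ∀ x, J (Finsupp.linearCombination ℂ vec x) = clc w x := fun x =>
    LinearMap.extendOfNorm_eq hdr hnorm x
  refine ⟨J, fun x y => map_add J x y, fun c x => J.map_smulₛₗ c x, ?_, ?_⟩
  · intro x y
    refine hdr.induction_on₂ (p := fun x y => ⟪J x, J y⟫_ℂ = ⟪y, x⟫_ℂ) ?_ ?_ x y
    · exact isClosed_eq (by fun_prop) (by fun_prop)
    · intro a b
      rw [hJe, hJe]
      exact hinner a b
  · intro s
    have h := hJe (Finsupp.single s 1)
    rw [clc_apply, Finsupp.sum_single_index (by simp)] at h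
    simpa using h

end

end MP8a6869

end

section

/-!
# MP_8a6869_an: assembly of the items
-/

namespace MP8a6869

open scoped InnerProductSpace ComplexOrder
open MonoidAlgebra Filter Topology

noncomputable section

theorem domM3 (hD : DomStmt) (G : Type) [Group G] (a : AG G) : Dominated a :=
  hD.2.2 M3 (hD.2.1 ℂ hD.1 (Fin 3)) G a

/-- the group elements as unitaries of `M_3(ℂ[G])` -/
def uG (G : Type) [Group G] : G →* unitary (AG G) where
  toFun g := ⟨single g 1, by
    constructor
    · rw [star_single_ma, single_mul_single, inv_mul_cancel, star_one, one_mul, one_def]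
    · rw [star_single_ma, single_mul_single, mul_inv_cancel, star_one, one_mul, one_def]⟩
  map_one' := rfl
  map_mul' g h := by
    apply Subtype.ext
    change (single (g * h) 1 : AG G) = single g 1 * single h 1
    rw [single_mul_single, one_mul]

theorem uG_coe (G : Type) [Group G] (g : G) : (uG G g : AG G) = single g 1 := rfl

theorem main_trM3_apply (m : M3) : trM3.τ m = (1 / 3 : ℂ) * ∑ i, m i i := by
  change ((1 / 3 : ℝ) : ℂ) * ∑ i, m i i = _
  push_cast
  ring

theorem trA_one (G : Type) [Group G] : (trA G).τ 1 = 1 := by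
  classical
  rw [trA, TrAlg.ma_apply, coeff_one_one, main_trM3_apply]
  simp

theorem trA_uG (G : Type) [Group G] (g : G) (hg : g ≠ 1) : (trA G).τ (uG G g : AG G) = 0 := by
  classical
  rw [trA, TrAlg.ma_apply, uG_coe, coeff_single, Finsupp.single_apply, if_neg hg, map_zero]

theorem finite_uG (G : Type) [Group G] (x : AG G) :
    {g : G | (trA G).τ (x * (uG G g : AG G)) ≠ 0}.Finite := by
  classical
  refine Set.Finite.subset (s := (fun g => g⁻¹) '' (x.coeff.support : Set G))
    (Set.Finite.image _ (Finset.finite_toSet _)) ?_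
  intro g hg
  refine ⟨g⁻¹, ?_, inv_inv g⟩
  rw [Finset.mem_coe, Finsupp.mem_support_iff]
  intro h0
  apply hg
  rw [trA, TrAlg.ma_apply, uG_coe, coeff_mul_single_apply, one_mul, h0, zero_mul, map_zero]

theorem trB_nondeg (F : Type) [Group F] (b : MonoidAlgebra ℂ F)
    (h : ∀ c, (trB F).τ (b * c) = 0) : b = 0 := by
  ext f
  have := h (single f⁻¹ 1)
  rw [trB, TrAlg.ma_apply, coeff_mul_single_apply, one_mul, inv_inv, mul_one] at this
  exact this

section op

variable {A : Type} [Ring A] [StarRing A] [Algebra ℂ A] {T : TrAlg A} {C : Cov T}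
  (F : FockSys C) (h1 : T.τ 1 = 1) (ht : F.Tracial) (hs : F.Separating)

/-- an element of the von Neumann algebra of the system as an operator -/
def opOf (x : (F.vna h1 ht hs).Elt) : F.H →L[ℂ] F.H := x.1

theorem opOf_mul (x y : (F.vna h1 ht hs).Elt) :
    opOf F h1 ht hs (x * y) = opOf F h1 ht hs x * opOf F h1 ht hs y := rfl

theorem vna_tr (x y : (F.vna h1 ht hs).Elt) : (F.vna h1 ht hs).tr (star x * y) =
    ⟪opOf F h1 ht hs x F.Om, opOf F h1 ht hs y F.Om⟫_ℂ :=
  F.tr_star_mul x y

end op

theorem main_of (hDom : DomStmt) (hCov : CovStmt) (hPair : PairStmt)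
    (hNeum : NeumStmt) (hCoef : CoefStmt) (hLeft : LeftSysStmt) (hFock : FockSysStmt)
    (hTrac : TracStmt) (hCent : CentStmt) (hL2F : L2FStmt) (hFact : FactStmt) (hIota : IotaStmt)
    (hExi : ExiStmt) (hFree : FreeStmt) : MainStmt := by
  intro G _ _ hicc hfree
  obtain ⟨f, hf⟩ := hfree
  obtain ⟨φ, hφ, hidx⟩ := hFree G f hf 20000
  obtain ⟨CP, hΘ, hP⟩ := hPair G _ φ hφ
  obtain ⟨C, hE⟩ := hCov (AG G) (MonoidAlgebra ℂ (FreeGroup (Fin 20000))) (trA G) (trB _) CP
    (fun n _ _ X => hDom.2.1 _ (hDom.2.2 ℂ hDom.1 _) n X) (trB_nondeg _)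
  obtain ⟨L⟩ := hLeft (AG G) (trA G) C (domM3 hDom G)
  obtain ⟨F⟩ := hFock (AG G) (trA G) C L
  obtain ⟨ht, hs⟩ := hTrac (AG G) (trA G) C F
  have h1 : (trA G).τ 1 = 1 := trA_one G
  have hcent := hCent (AG G) (trA G) C F h1 G (uG G)
    (by
      intro n _ x y
      obtain ⟨g, hg⟩ := hNeum G _ φ hidx n x y
      refine ⟨g, fun j => ?_⟩
      rw [hE]
      have : CP.P (star (y j) * (uG G g : AG G) * x j) = 0 := by
        ext f
        rw [hP, uG_coe]
        exact hg j f
      rw [this, map_zero])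
    (hL2F G hicc)
  have : Infinite (FreeGroup (Fin 2)) := by
    refine Infinite.of_injective (fun n : ℤ => (FreeGroup.of (0 : Fin 2)) ^ n) ?_
    intro a b hab
    have h := congrArg (FreeGroup.lift (fun _ : Fin 2 => Multiplicative.ofAdd (1 : ℤ))) hab
    simpa [← ofAdd_zsmul] using h
  have : Infinite G := Infinite.of_injective f hf
  have hII := hFact (AG G) (trA G) C F h1 ht hs G (uG G) (trA_uG G) hcent
  obtain ⟨ι, hι⟩ := hIota (AG G) (trA G) C F h1 ht hs G (uG G) (finite_uG G) (trA_uG G)
  refine ⟨F.vna h1 ht hs, hII, Sep.separable_fock G F.toLeftSys, ι, fun U hU => ?_⟩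
  set e : AG G := single 1 (Matrix.single 0 0 1) with he
  set e3 : AG G := single 1 (Matrix.single 2 2 1) with he3
  let ξ : (F.vna h1 ht hs).Elt := ⟨F.lam e * F.D * F.lam e3,
    mul_mem (mul_mem (F.lam_mem e) F.D_mem) (F.lam_mem e3)⟩
  have hmain := hExi U G _ φ hφ (F.vna h1 ht hs) ι hU ξ
  have hopξ : opOf F h1 ht hs ξ = F.lam e * F.D * F.lam e3 := rfl
  have hξ : ∀ b : AG G, (opOf F h1 ht hs ξ) (F.lam b F.Om) = F.vec [e, e3 * b] := by
    intro b
    rw [hopξ]
    change F.lam e (F.D (F.lam e3 (F.lam b F.Om))) = _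
    rw [FockSys.Om, F.lam_vec, F.lam_vec, F.D_one, F.lam_vec, mul_one, mul_one]
  have hξ1 : (opOf F h1 ht hs ξ) F.Om = F.vec [e, e3] := by
    rw [hopξ]
    change F.lam e (F.D (F.lam e3 F.Om)) = _
    rw [FockSys.Om, F.lam_vec, F.D_one, F.lam_vec, mul_one, mul_one]
  have hnorm : (F.vna h1 ht hs).tr (star ξ * ξ) = form C 1 [e, e3] [e, e3] := by
    rw [vna_tr, hξ1, F.inner_vec]
  have hterm : ∀ (i : Fin 20000) (m : ℕ), (F.vna h1 ht hs).tr (star ξ *
      (ι.hom ⟨leftReg G (φ (FreeGroup.of i) ^ m), leftReg_mem G _⟩ * ξ *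
        ι.hom ⟨leftReg G (φ (FreeGroup.of i))⁻¹, leftReg_mem G _⟩)) =
      form C 1 [e, e3] [single (φ (FreeGroup.of i) ^ m) (Matrix.single 0 0 1),
        single (φ (FreeGroup.of i))⁻¹ (Matrix.single 2 2 1)] := by
    intro i m
    have h3 : opOf F h1 ht hs (ι.hom ⟨leftReg G (φ (FreeGroup.of i) ^ m), leftReg_mem G _⟩) =
      F.lam (single (φ (FreeGroup.of i) ^ m) 1) := hι (φ (FreeGroup.of i) ^ m)
    have h4 : opOf F h1 ht hs (ι.hom ⟨leftReg G (φ (FreeGroup.of i))⁻¹, leftReg_mem G _⟩) =
      F.lam (single (φ (FreeGroup.of i))⁻¹ 1) := hι (φ (FreeGroup.of i))⁻¹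
    rw [vna_tr, hξ1, opOf_mul, opOf_mul, h3, h4, mul_apply_eq_comp, mul_apply_eq_comp, hξ,
      F.lam_vec, F.inner_vec]
    congr 3
    · rw [he, single_mul_single, mul_one, one_mul]
    · rw [he3, single_mul_single, one_mul, mul_one]
  have hcoef := hCoef G _ φ hφ CP C hΘ hP hE
  have hsum : ∀ i : Fin 20000, ∑ m ∈ Finset.Icc 1 3, ‖(F.vna h1 ht hs).tr (star ξ *
      (ι.hom ⟨leftReg G (φ (FreeGroup.of i) ^ m), leftReg_mem G _⟩ * ξ *
        ι.hom ⟨leftReg G (φ (FreeGroup.of i))⁻¹, leftReg_mem G _⟩))‖ = 7 / 45 := by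
    intro i
    have h5 : Finset.Icc 1 3 = ({1, 2, 3} : Finset ℕ) := by decide
    obtain ⟨-, c1, c2, c3⟩ := hcoef i
    rw [h5, Finset.sum_insert (by decide), Finset.sum_insert (by decide), Finset.sum_singleton,
      hterm, hterm, hterm, pow_one]
    rw [he, he3, c1, c2, c3]
    have n1 : ‖(1 / 9 * (2 / 5) : ℂ)‖ = 2 / 45 := by
      rw [show (1 / 9 * (2 / 5) : ℂ) = ((2 / 45 : ℝ) : ℂ) by push_cast; norm_num,
        Complex.norm_real]
      norm_num
    have n2 : ‖(1 / 9 * (-(3 / 5 * Complex.I)) : ℂ)‖ = 3 / 45 := by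
      rw [show (1 / 9 * (-(3 / 5 * Complex.I)) : ℂ) = ((3 / 45 : ℝ) : ℂ) * (-Complex.I) by
        push_cast; ring, norm_mul, Complex.norm_real, norm_neg, Complex.norm_I]
      norm_num
    rw [n1, n2]
    norm_num
  obtain ⟨c0, -⟩ := hcoef ⟨0, by norm_num⟩
  rw [Finset.sum_congr rfl (fun i _ => hsum i), hnorm, he, he3, c0] at hmain
  rw [Finset.sum_const, Finset.card_univ, Fintype.card_fin, nsmul_eq_mul] at hmain
  have hre : ((1 / 9 : ℂ)).re = 1 / 9 := by
    rw [show (1 / 9 : ℂ) = ((1 / 9 : ℝ) : ℂ) by push_cast; rfl, Complex.ofReal_re]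
  rw [hre] at hmain
  have hsqrt : √((20000 : ℕ) : ℝ) ≤ 142 := by
    rw [Real.sqrt_le_left (by norm_num)]
    norm_num
  push_cast at hmain hsqrt
  nlinarith

end

end MP8a6869

end

section

/-!
# MP_8a6869_an, item N1: the norm bound for free families
-/

namespace MP8a6869

open scoped InnerProductSpace ComplexOrder ENNReal
open Filter Topology

noncomputable section

namespace N1

/-! ### Restriction of vectors to subsets -/

theorem memInd {S : Type} (W : Set S) [DecidablePred (· ∈ W)] (f : ell2 S) :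
    Memℓp (fun s => if s ∈ W then (f s : ℂ) else 0) (2 : ℝ≥0∞) := by
  have h := lp.memℓp f
  have h2 : (0 : ℝ) < (2 : ℝ≥0∞).toReal := by norm_num
  rw [memℓp_gen_iff h2] at h ⊢
  refine Summable.of_nonneg_of_le (fun s => by positivity) (fun s => ?_) h
  by_cases hs : s ∈ W
  · rw [if_pos hs]
  · rw [if_neg hs]
    have : ‖(0 : ℂ)‖ ^ (2 : ℝ≥0∞).toReal = 0 := by
      rw [norm_zero, Real.zero_rpow h2.ne']
    rw [this]
    positivity

/-- the restriction of `f` to `W` -/
def ind {S : Type} (W : Set S) (f : ell2 S) : ell2 S := by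
  classical exact ⟨fun s => if s ∈ W then (f s : ℂ) else 0, memInd W f⟩

theorem ind_of_mem {S : Type} {W : Set S} {s : S} (h : s ∈ W) (f : ell2 S) :
    ind W f s = f s := by
  classical
  change (if s ∈ W then (f s : ℂ) else 0) = _
  rw [if_pos h]

theorem ind_of_notMem {S : Type} {W : Set S} {s : S} (h : s ∉ W) (f : ell2 S) :
    ind W f s = 0 := by
  classical
  change (if s ∈ W then (f s : ℂ) else 0) = _
  rw [if_neg h]

theorem ind_add {S : Type} (W : Set S) (f : ell2 S) : ind W f + ind Wᶜ f = f := by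
  ext s
  rw [lp.coeFn_add, Pi.add_apply]
  by_cases hs : s ∈ W
  · rw [ind_of_mem hs, ind_of_notMem (by simpa using hs), add_zero]
  · rw [ind_of_notMem hs, ind_of_mem (by simpa using hs), zero_add]

theorem normSq {S : Type} (f : ell2 S) : ‖f‖ ^ 2 = ∑' s, ‖f s‖ ^ 2 := by
  have h := lp.norm_rpow_eq_tsum (p := 2) (by norm_num) f
  simpa using h

theorem sumSq {S : Type} (f : ell2 S) : Summable (fun s => ‖f s‖ ^ 2) := by
  have h := lp.memℓp f
  have h2 : (0 : ℝ) < (2 : ℝ≥0∞).toReal := by norm_num
  rw [memℓp_gen_iff h2] at h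
  simpa using h

theorem sum_ind_le {S : Type} {I : ℕ} (W : Fin I → Set S)
    (hW : ∀ i j, i ≠ j → Disjoint (W i) (W j)) (f : ell2 S) :
    ∑ i, ‖ind (W i) f‖ ^ 2 ≤ ‖f‖ ^ 2 := by
  have h1 : ∑ i, ‖ind (W i) f‖ ^ 2 = ∑' s, ∑ i, ‖ind (W i) f s‖ ^ 2 := by
    rw [Summable.tsum_finsetSum (fun i _ => sumSq _)]
    exact Finset.sum_congr rfl fun i _ => normSq _
  rw [h1, normSq f]
  refine Summable.tsum_le_tsum (fun s => ?_) (summable_sum fun i _ => sumSq _) (sumSq f)
  by_cases h : ∃ i, s ∈ W i
  · obtain ⟨i, hi⟩ := h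
    rw [Finset.sum_eq_single i]
    · rw [ind_of_mem hi]
    · intro j _ hj
      have : s ∉ W j := fun h' => (Set.disjoint_left.1 (hW j i hj) h') hi
      rw [ind_of_notMem this]
      simp
    · intro h'
      exact absurd (Finset.mem_univ i) h'
  · rw [Finset.sum_eq_zero]
    · positivity
    · intro i _
      rw [ind_of_notMem (fun h' => h ⟨i, h'⟩)]
      simp

theorem norm_ind_le {S : Type} (W : Set S) (f : ell2 S) : ‖ind W f‖ ≤ ‖f‖ := by
  have h := sum_ind_le (I := 1) (fun _ => W) (fun i j h => absurd (Subsingleton.elim i j) h) f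
  rw [Fin.sum_univ_one] at h
  exact (pow_le_pow_iff_left₀ (norm_nonneg _) (norm_nonneg _) two_ne_zero).1 h

/-- sums of vectors with disjoint supports -/
theorem sum_disj {S : Type} {I : ℕ} (V : Fin I → Set S)
    (hV : ∀ i j, i ≠ j → Disjoint (V i) (V j)) (u : Fin I → ell2 S)
    (hu : ∀ i s, s ∉ V i → u i s = 0) :
    ‖∑ i, u i‖ ^ 2 = ∑ i, ‖u i‖ ^ 2 := by
  have h1 : ∑ i, ‖u i‖ ^ 2 = ∑' s, ∑ i, ‖u i s‖ ^ 2 := by
    rw [Summable.tsum_finsetSum (fun i _ => sumSq _)]
    exact Finset.sum_congr rfl fun i _ => normSq _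
  rw [h1, normSq]
  refine tsum_congr fun s => ?_
  have h2 : (∑ i, u i : ell2 S) s = ∑ i, u i s := by
    rw [lp.coeFn_sum, Finset.sum_apply]
  rw [h2]
  by_cases h : ∃ i, s ∈ V i
  · obtain ⟨i, hi⟩ := h
    have h3 : ∀ j, j ≠ i → u j s = 0 := fun j hj =>
      hu j s (fun h' => (Set.disjoint_left.1 (hV j i hj) h') hi)
    rw [Finset.sum_eq_single i (fun j _ hj => h3 j hj)
      (fun h' => absurd (Finset.mem_univ i) h'), Finset.sum_eq_single i
      (fun j _ hj => by rw [h3 j hj]; simp) (fun h' => absurd (Finset.mem_univ i) h')]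
  · have h3 : ∀ i, u i s = 0 := fun i => hu i s (fun h' => h ⟨i, h'⟩)
    simp [h3]

/-- **The general norm bound.** -/
theorem bound {S : Type} {I : ℕ} (σ : Fin I → S ≃ S) (W V : Fin I → Set S)
    (hW : ∀ i j, i ≠ j → Disjoint (W i) (W j)) (hV : ∀ i j, i ≠ j → Disjoint (V i) (V j))
    (h : ∀ i s, σ i s ∉ W i → s ∈ V i) (v : ell2 S) :
    ‖∑ i, permL (σ i) v‖ ≤ 2 * √I * ‖v‖ := by
  have h1 : ∑ i, permL (σ i) v = ∑ i, permL (σ i) (ind (W i) v) +
      ∑ i, permL (σ i) (ind (W i)ᶜ v) := by
    rw [← Finset.sum_add_distrib]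
    refine Finset.sum_congr rfl fun i _ => ?_
    rw [← map_add, ind_add]
  have h2 : ‖∑ i, permL (σ i) (ind (W i) v)‖ ≤ √I * ‖v‖ := by
    have h3 : ‖∑ i, permL (σ i) (ind (W i) v)‖ ≤ ∑ i, 1 * ‖ind (W i) v‖ := by
      refine (norm_sum_le _ _).trans (Finset.sum_le_sum fun i _ => ?_)
      rw [LinearIsometry.norm_map, one_mul]
    have h4 : (∑ i : Fin I, 1 * ‖ind (W i) v‖) ≤ √I * ‖v‖ := by
      have h5 := Real.sum_mul_le_sqrt_mul_sqrt (Finset.univ : Finset (Fin I)) (fun _ => (1 : ℝ))
        (fun i => ‖ind (W i) v‖)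
      have h6 : √(∑ i : Fin I, ‖ind (W i) v‖ ^ 2) ≤ ‖v‖ := by
        rw [Real.sqrt_le_left (norm_nonneg _)]
        exact sum_ind_le W hW v
      have h7 : (∑ i : Fin I, (1 : ℝ) ^ 2) = I := by simp
      rw [h7] at h5
      exact h5.trans (mul_le_mul_of_nonneg_left h6 (Real.sqrt_nonneg _))
    exact h3.trans h4
  have h3 : ‖∑ i, permL (σ i) (ind (W i)ᶜ v)‖ ≤ √I * ‖v‖ := by
    have h4 : ‖∑ i, permL (σ i) (ind (W i)ᶜ v)‖ ^ 2 ≤ I * ‖v‖ ^ 2 := by
      rw [sum_disj V hV]
      · have h5 : ∑ i, ‖permL (σ i) (ind (W i)ᶜ v)‖ ^ 2 ≤ ∑ _i : Fin I, ‖v‖ ^ 2 := by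
          refine Finset.sum_le_sum fun i _ => ?_
          rw [LinearIsometry.norm_map]
          exact pow_le_pow_left₀ (norm_nonneg _) (norm_ind_le _ _) 2
        refine h5.trans (le_of_eq ?_)
        simp
      · intro i s hs
        rw [permL_apply]
        apply ind_of_notMem
        intro h'
        exact hs (h i s h')
    have h5 : (√I * ‖v‖) ^ 2 = I * ‖v‖ ^ 2 := by
      rw [mul_pow, Real.sq_sqrt (Nat.cast_nonneg _)]
    rw [← h5] at h4
    exact (pow_le_pow_iff_left₀ (norm_nonneg _) (by positivity) two_ne_zero).1 h4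
  rw [h1]
  calc _ ≤ _ := norm_add_le _ _
    _ ≤ √I * ‖v‖ + √I * ‖v‖ := add_le_add h2 h3
    _ = _ := by ring

/-! ### Free groups -/

variable {I : ℕ}

/-- the reduced word of `f` starts with the letter `a` -/
def Starts (a : Fin I × Bool) (f : FreeGroup (Fin I)) : Prop := f.toWord.head? = some a

theorem starts_mul (i : Fin I) (s : Bool) (f : FreeGroup (Fin I))
    (h : ¬ Starts (i, !s) f) : Starts (i, s) (FreeGroup.mk [(i, s)] * f) := by
  have h1 : FreeGroup.mk [(i, s)] * f = FreeGroup.mk ((i, s) :: f.toWord) := by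
    conv_lhs => rw [← FreeGroup.mk_toWord (x := f)]
    rw [FreeGroup.mul_mk]
    rfl
  rw [Starts, h1, FreeGroup.toWord_mk, FreeGroup.reduce.cons, FreeGroup.reduce_toWord]
  rw [Starts] at h
  cases hw : f.toWord with
  | nil => simp
  | cons a L =>
    rw [hw] at h
    simp only [List.head?_cons, Option.some.injEq] at h
    have h2 : ¬ (i = a.1 ∧ s = !a.2) := by
      rintro ⟨h3, h4⟩
      apply h
      rw [h4, Bool.not_not, h3]
    simp only [h2, if_false, List.head?_cons]

theorem starts_pow (i : Fin I) (s : Bool) (f : FreeGroup (Fin I))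
    (h : ¬ Starts (i, !s) f) (n : ℕ) : Starts (i, s) (FreeGroup.mk [(i, s)] ^ (n + 1) * f) := by
  induction n with
  | zero =>
    rw [zero_add, pow_one]
    exact starts_mul i s f h
  | succ n ih =>
    rw [pow_succ', mul_assoc]
    apply starts_mul
    intro h'
    rw [Starts] at ih h'
    rw [ih] at h'
    simp at h'

theorem starts_disj (s : Bool) (f : FreeGroup (Fin I)) (i j : Fin I)
    (h1 : Starts (i, s) f) (h2 : Starts (j, s) f) : i = j := by
  rw [Starts] at h1 h2
  rw [h1] at h2
  simpa using h2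

/-- a left equivariant map -/
theorem exists_equiv (G : Type) [Group G] (φ : FreeGroup (Fin I) →* G)
    (hφ : Function.Injective φ) :
    ∃ w : G → FreeGroup (Fin I), ∀ f x, w (φ f * x) = f * w x := by
  classical
  let st : Setoid G :=
    { r := fun x y => ∃ f, x = φ f * y
      iseqv :=
        { refl := fun x => ⟨1, by simp⟩
          symm := by
            rintro x y ⟨f, hf⟩
            exact ⟨f⁻¹, by rw [hf]; simp⟩
          trans := by
            rintro x y z ⟨f, hf⟩ ⟨g, hg⟩
            exact ⟨f * g, by rw [hf, hg, map_mul, mul_assoc]⟩ } }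
  have h1 : ∀ x : G, ∃ f, x = φ f * (Quotient.mk st x).out := by
    intro x
    have := Quotient.exact (Quotient.out_eq (Quotient.mk st x))
    exact st.iseqv.symm this
  choose w hw using h1
  refine ⟨w, fun f x => ?_⟩
  have h2 : Quotient.mk st (φ f * x) = Quotient.mk st x := Quotient.sound ⟨f, rfl⟩
  have h3 := hw (φ f * x)
  rw [h2] at h3
  have h4 := hw x
  apply hφ
  rw [map_mul]
  have h5 : φ (w (φ f * x)) * (Quotient.mk st x).out = φ f * φ (w x) * (Quotient.mk st x).out := by
    rw [← h3, mul_assoc, ← h4]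
  exact mul_right_cancel h5

theorem main (G : Type) [Group G] (φ : FreeGroup (Fin I) →* G)
    (hφ : Function.Injective φ) (s : Bool) (n : ℕ) (v : ell2 G) :
    ‖∑ i, leftReg G (φ (FreeGroup.mk [(i, s)] ^ (n + 1))) v‖ ≤ 2 * √I * ‖v‖ := by
  obtain ⟨w, hw⟩ := exists_equiv G φ hφ
  have key := bound (fun i => Equiv.mulLeft (φ (FreeGroup.mk [(i, s)] ^ (n + 1)))⁻¹)
    (fun i => {x | Starts (i, !s) (w x)}) (fun i => {x | Starts (i, s) (w x)}) ?_ ?_ ?_ v
  · exact key
  · intro i j hij
    rw [Set.disjoint_left]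
    intro x hx hx'
    exact hij (starts_disj _ _ _ _ hx hx')
  · intro i j hij
    rw [Set.disjoint_left]
    intro x hx hx'
    exact hij (starts_disj _ _ _ _ hx hx')
  · intro i x hx
    simp only [Equiv.coe_mulLeft, Set.mem_setOf_eq] at hx ⊢
    have h1 := starts_pow i s _ hx n
    rw [← hw] at h1
    simpa using h1

end N1

theorem fnorm : FNormStmt := by
  intro G _ I φ hφ d hd v
  rcases lt_or_gt_of_ne hd with h | h
  · obtain ⟨n, hn⟩ : ∃ n : ℕ, d = -((n : ℤ) + 1) := ⟨(-d - 1).toNat, by omega⟩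
    have key := N1.main G φ hφ false n v
    have h1 : ∀ i : Fin I, φ (FreeGroup.of i) ^ d = φ (FreeGroup.mk [(i, false)] ^ (n + 1)) := by
      intro i
      have h2 : (FreeGroup.mk [(i, false)] : FreeGroup (Fin I)) = (FreeGroup.of i)⁻¹ := by
        simp [FreeGroup.of, FreeGroup.inv_mk, FreeGroup.invRev]
      rw [h2, map_pow, map_inv, hn, zpow_neg, inv_pow]
      norm_cast
    simp only [h1]
    exact key
  · obtain ⟨n, hn⟩ : ∃ n : ℕ, d = ((n : ℤ) + 1) := ⟨(d - 1).toNat, by omega⟩
    have key := N1.main G φ hφ true n v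
    have h1 : ∀ i : Fin I, φ (FreeGroup.of i) ^ d = φ (FreeGroup.mk [(i, true)] ^ (n + 1)) := by
      intro i
      rw [map_pow, hn]
      norm_cast
    simp only [h1]
    exact key

end

end MP8a6869

end

section

/-!
# MP_8a6869_an: the positivity inequality [N2]
-/

namespace MP8a6869

open scoped InnerProductSpace ComplexOrder ENNReal
open Filter Topology

noncomputable section

section

variable {G : Type}

theorem memℓp_n2Abs (v : ell2 G) : Memℓp (fun x => ((‖v x‖ : ℝ) : ℂ)) (2 : ℝ≥0∞) := by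
  have h := lp.memℓp v
  have h2 : (0 : ℝ) < (2 : ℝ≥0∞).toReal := by norm_num
  rw [memℓp_gen_iff h2] at h ⊢
  simpa using h

/-- The element `|v|` of `ℓ²(G)`. -/
def n2Abs (v : ell2 G) : ell2 G := ⟨fun x => ((‖v x‖ : ℝ) : ℂ), memℓp_n2Abs v⟩

@[simp] theorem n2Abs_apply (v : ell2 G) (x : G) : n2Abs v x = ((‖v x‖ : ℝ) : ℂ) := rfl

theorem norm_n2Abs (v : ell2 G) : ‖n2Abs v‖ = ‖v‖ := by
  have h2 : (0 : ℝ) < (2 : ℝ≥0∞).toReal := by norm_num
  rw [lp.norm_eq_tsum_rpow h2, lp.norm_eq_tsum_rpow h2]
  simp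

variable [Group G]

/-- The matrix coefficient of `|v|`. -/
def n2K (v : ell2 G) (g h : G) : ℝ := ∑' x, ‖v x‖ * ‖v (g⁻¹ * x * h)‖

theorem n2K_nonneg (v : ell2 G) (g h : G) : 0 ≤ n2K v g h :=
  tsum_nonneg fun _ => mul_nonneg (norm_nonneg _) (norm_nonneg _)

theorem n2K_inner (v : ell2 G) (g h : G) :
    ⟪n2Abs v, leftReg G g (rightReg G h (n2Abs v))⟫_ℂ = (n2K v g h : ℂ) := by
  rw [lp.inner_eq_tsum, n2K, Complex.ofReal_tsum]
  refine tsum_congr fun x => ?_
  rw [leftReg_apply, rightReg_apply, n2Abs_apply, n2Abs_apply, RCLike.inner_apply]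
  simp [mul_comm]

theorem n2K_bound (v : ell2 G) (g h : G) :
    ‖⟪v, leftReg G g (rightReg G h v)⟫_ℂ‖ ≤ n2K v g h := by
  rw [lp.inner_eq_tsum, n2K]
  have e : ∀ x, ‖⟪(v x : ℂ), (leftReg G g (rightReg G h v)) x⟫_ℂ‖ =
      ‖v x‖ * ‖v (g⁻¹ * x * h)‖ := by
    intro x
    rw [leftReg_apply, rightReg_apply, RCLike.inner_apply, norm_mul, RCLike.norm_conj, mul_comm]
  have hs : Summable fun x => ‖⟪(v x : ℂ), (leftReg G g (rightReg G h v)) x⟫_ℂ‖ :=
    (lp.summable_inner v (leftReg G g (rightReg G h v))).norm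
  refine (norm_tsum_le_tsum_norm hs).trans (le_of_eq (tsum_congr e))

theorem n2_norm_left (g : G) (x : ell2 G) : ‖leftReg G g x‖ = ‖x‖ :=
  (permL (Equiv.mulLeft g⁻¹)).norm_map x

theorem n2_norm_right (g : G) (x : ell2 G) : ‖rightReg G g x‖ = ‖x‖ :=
  (permL (Equiv.mulRight g)).norm_map x

theorem n2_left_left (g h : G) (x : ell2 G) :
    leftReg G g (leftReg G h x) = leftReg G (g * h) x := by
  rw [leftReg_mul]; rfl

theorem n2_inner_left (g h : G) (x y : ell2 G) :
    ⟪leftReg G g x, leftReg G h y⟫_ℂ = ⟪x, leftReg G (g⁻¹ * h) y⟫_ℂ := by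
  rw [← ContinuousLinearMap.adjoint_inner_right, ← ContinuousLinearMap.star_eq_adjoint,
    star_leftReg, n2_left_left]

/-- The sum `Σ_{k<4} λ(b^k)` applied to a vector. -/
def n2S (b : G) (x : ell2 G) : ell2 G := ∑ k ∈ Finset.range 4, leftReg G (b ^ (k : ℤ)) x

theorem n2S_comm (b : G) (g h : G) (hg : b * g = g * b) (x : ell2 G) :
    n2S b (leftReg G g (rightReg G h x)) = leftReg G g (rightReg G h (n2S b x)) := by
  have hc : ∀ k : ℤ, b ^ k * g = g * b ^ k := fun k =>
    ((show Commute b g from hg).zpow_left k).eq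
  rw [n2S, n2S, map_sum, map_sum]
  refine Finset.sum_congr rfl fun k _ => ?_
  rw [n2_left_left, hc, ← n2_left_left]
  congr 1
  have := congrArg (fun T : ell2 G →L[ℂ] ell2 G => T x) (leftReg_rightReg G (b ^ (k : ℤ)) h)
  exact this

theorem n2S_inner (b : G) (x y : ell2 G) :
    ⟪n2S b x, n2S b y⟫_ℂ = ∑ k ∈ Finset.range 4, ∑ l ∈ Finset.range 4,
      ⟪x, leftReg G (b ^ ((l : ℤ) - k)) y⟫_ℂ := by
  rw [n2S, n2S, sum_inner]
  refine Finset.sum_congr rfl fun k _ => ?_
  rw [inner_sum]
  refine Finset.sum_congr rfl fun l _ => ?_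
  rw [n2_inner_left, ← zpow_neg, ← zpow_add]
  congr 3
  ring_nf

theorem n2_step (b : G) (v : ell2 G) :
    3 * ∑ m ∈ Finset.Icc 1 3, n2K v (b ^ m) b ≤
      4 * ‖v‖ ^ 2 + 3 * (n2K v (b ^ (1 : ℤ)) 1 + n2K v (b ^ (-1 : ℤ)) 1) +
        2 * (n2K v (b ^ (2 : ℤ)) 1 + n2K v (b ^ (-2 : ℤ)) 1) +
        (n2K v (b ^ (3 : ℤ)) 1 + n2K v (b ^ (-3 : ℤ)) 1) := by
  set a := n2Abs v with ha
  set w := leftReg G (b ^ (2 : ℤ)) (rightReg G b a) with hw
  have h1 : ⟪n2S b a, n2S b w⟫_ℂ = ((∑ k ∈ Finset.range 4, ∑ l ∈ Finset.range 4,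
      n2K v (b ^ ((l : ℤ) - k + 2)) b : ℝ) : ℂ) := by
    rw [n2S_inner]
    push_cast
    refine Finset.sum_congr rfl fun k _ => Finset.sum_congr rfl fun l _ => ?_
    rw [hw, n2_left_left, ← zpow_add, n2K_inner]
  have h2 : ⟪n2S b a, n2S b a⟫_ℂ = ((∑ k ∈ Finset.range 4, ∑ l ∈ Finset.range 4,
      n2K v (b ^ ((l : ℤ) - k)) 1 : ℝ) : ℂ) := by
    rw [n2S_inner]
    push_cast
    refine Finset.sum_congr rfl fun k _ => Finset.sum_congr rfl fun l _ => ?_
    rw [← n2K_inner, rightReg_one]
    rfl
  have h3 : ‖n2S b w‖ = ‖n2S b a‖ := by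
    rw [hw, n2S_comm b (b ^ (2 : ℤ)) b ((Commute.refl b).zpow_right 2).eq, n2_norm_left,
      n2_norm_right]
  have h4 : ‖⟪n2S b a, n2S b w⟫_ℂ‖ ≤ ‖⟪n2S b a, n2S b a⟫_ℂ‖ := by
    refine (norm_inner_le_norm _ _).trans (le_of_eq ?_)
    rw [h3, inner_self_eq_norm_sq_to_K]
    simp [sq]
  rw [h1, h2, Complex.norm_real, Complex.norm_real] at h4
  have hn1 : 0 ≤ ∑ k ∈ Finset.range 4, ∑ l ∈ Finset.range 4,
      n2K v (b ^ ((l : ℤ) - k + 2)) b :=
    Finset.sum_nonneg fun _ _ => Finset.sum_nonneg fun _ _ => n2K_nonneg _ _ _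
  have hn2 : 0 ≤ ∑ k ∈ Finset.range 4, ∑ l ∈ Finset.range 4,
      n2K v (b ^ ((l : ℤ) - k)) 1 :=
    Finset.sum_nonneg fun _ _ => Finset.sum_nonneg fun _ _ => n2K_nonneg _ _ _
  rw [Real.norm_of_nonneg hn1, Real.norm_of_nonneg hn2] at h4
  have h0 : n2K v 1 1 = ‖v‖ ^ 2 := by
    have := n2K_inner v 1 1
    rw [rightReg_one, leftReg_one] at this
    change ⟪n2Abs v, n2Abs v⟫_ℂ = _ at this
    rw [inner_self_eq_norm_sq_to_K, norm_n2Abs] at this
    have h5 : (((‖v‖ : ℝ) ^ 2 : ℝ) : ℂ) = ((n2K v 1 1 : ℝ) : ℂ) := by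
      rw [← this]
      push_cast
      rfl
    exact (Complex.ofReal_injective h5).symm
  have hm : ∑ m ∈ Finset.Icc 1 3, n2K v (b ^ m) b =
      n2K v (b ^ (1 : ℤ)) b + n2K v (b ^ (2 : ℤ)) b + n2K v (b ^ (3 : ℤ)) b := by
    have : Finset.Icc 1 3 = {1, 2, 3} := by decide
    rw [this]
    rw [Finset.sum_insert (by decide), Finset.sum_insert (by decide), Finset.sum_singleton]
    norm_cast
    ring_nf
  rw [hm]
  simp only [Finset.sum_range_succ, Finset.sum_range_zero, Nat.cast_zero, Nat.cast_one,
    Nat.cast_ofNat] at h4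
  norm_num at h4
  have p := fun d : ℤ => n2K_nonneg v (b ^ d) b
  have p1 := p (-1)
  have p0 := p 0
  have p2 := p 1
  have p3 := p 2
  have p4 := p 3
  have p5 := p 4
  have p6 := p 5
  norm_num at p1 p0 p2 p3 p4 p5 p6 ⊢
  rw [h0] at h4
  linarith

end

theorem pos (h : FNormStmt) : PosStmt := by
  intro G _ I φ hφ v
  set b : Fin I → G := fun i => φ (FreeGroup.of i) with hb
  have h1 : ∀ d : ℤ, d ≠ 0 → ∑ i, n2K v (b i ^ d) 1 ≤ 2 * √I * ‖v‖ ^ 2 := by
    intro d hd
    have e : ((∑ i, n2K v (b i ^ d) 1 : ℝ) : ℂ) =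
        ⟪n2Abs v, ∑ i, leftReg G (b i ^ d) (n2Abs v)⟫_ℂ := by
      rw [inner_sum]
      push_cast
      refine Finset.sum_congr rfl fun i _ => ?_
      rw [← n2K_inner, rightReg_one]
      rfl
    have e2 : ‖((∑ i, n2K v (b i ^ d) 1 : ℝ) : ℂ)‖ ≤ ‖v‖ * (2 * √I * ‖v‖) := by
      rw [e]
      refine (norm_inner_le_norm _ _).trans ?_
      rw [norm_n2Abs]
      refine mul_le_mul_of_nonneg_left ?_ (norm_nonneg _)
      have := h G I φ hφ d hd (n2Abs v)
      rw [norm_n2Abs] at this
      exact this
    rw [Complex.norm_real, Real.norm_of_nonneg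
      (Finset.sum_nonneg fun _ _ => n2K_nonneg _ _ _)] at e2
    nlinarith [e2]
  have h2 : ∑ i : Fin I, ∑ m ∈ Finset.Icc 1 3,
      ‖⟪v, leftReg G (φ (FreeGroup.of i) ^ m) (rightReg G (φ (FreeGroup.of i)) v)⟫_ℂ‖ ≤
      ∑ i : Fin I, ∑ m ∈ Finset.Icc 1 3, n2K v (b i ^ m) (b i) :=
    Finset.sum_le_sum fun i _ => Finset.sum_le_sum fun m _ => n2K_bound v _ _
  have h3 : 3 * ∑ i : Fin I, ∑ m ∈ Finset.Icc 1 3, n2K v (b i ^ m) (b i) ≤
      ∑ i : Fin I, (4 * ‖v‖ ^ 2 + 3 * (n2K v (b i ^ (1 : ℤ)) 1 + n2K v (b i ^ (-1 : ℤ)) 1) +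
        2 * (n2K v (b i ^ (2 : ℤ)) 1 + n2K v (b i ^ (-2 : ℤ)) 1) +
        (n2K v (b i ^ (3 : ℤ)) 1 + n2K v (b i ^ (-3 : ℤ)) 1)) := by
    rw [Finset.mul_sum]
    exact Finset.sum_le_sum fun i _ => n2_step (b i) v
  simp only [Finset.sum_add_distrib, ← Finset.mul_sum, Finset.sum_const, Finset.card_univ,
    Fintype.card_fin, nsmul_eq_mul] at h3
  have a1 := h1 1 (by norm_num)
  have a2 := h1 (-1) (by norm_num)
  have a3 := h1 2 (by norm_num)
  have a4 := h1 (-2) (by norm_num)
  have a5 := h1 3 (by norm_num)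
  have a6 := h1 (-3) (by norm_num)
  nlinarith [h2, h3, a1, a2, a3, a4, a5, a6]

end

end MP8a6869

end
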