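import Pool.Agent.Work.MP_8a6869_an.Stmts
import Pool.Agent.Work.MP_8a6869_an.Bd.B01
import Pool.Agent.Work.MP_8a6869_an.F7
import Pool.Agent.Work.MP_8a6869_an.F10
import Pool.Agent.Work.MP_8a6869_an.T2

/-! Bundle of small proof modules (one section per former module). -/

section

/-!
# MP_8a6869_an, item N3: the inequality passes to existential extensions
-/

namespace MP8a6869

open scoped InnerProductSpace ComplexOrder
open Filter Topology

noncomputable section

namespace N3

variable (G : Type) [Group G]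

/-- The norm of `x δ_1`. -/
def n2 (x : (LG G).Elt) : ℝ := ‖(x.1 : ell2 G →L[ℂ] ell2 G) (delta 1)‖

theorem n2_nonneg (x : (LG G).Elt) : 0 ≤ n2 G x := norm_nonneg _

theorem tr_n2 (z : (LG G).Elt) : (LG G).tr (star z * z) = ((n2 G z : ℝ) : ℂ) ^ 2 := by
  have h := LGtr_star_mul G z z
  rw [inner_self_eq_norm_sq_to_K] at h
  exact h

theorem n2_sub_le (x y z : (LG G).Elt) : n2 G (x - z) ≤ n2 G (x - y) + n2 G (y - z) := by
  have h : (x - z) = (x - y) + (y - z) := by abel
  rw [h]
  exact norm_add_le _ _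

theorem n2_mul_le (x y : (LG G).Elt) : n2 G (x * y) ≤ ‖x‖ * n2 G y :=
  (x.1 : ell2 G →L[ℂ] ell2 G).le_opNorm _

theorem n2_star (x : (LG G).Elt) : n2 G (star x) = n2 G x := by
  have h1 := tr_n2 G x
  have h2 := tr_n2 G (star x)
  rw [star_star, ← (LG G).tr_comm, h1] at h2
  have h3 : (n2 G x) ^ 2 = (n2 G (star x)) ^ 2 := by exact_mod_cast h2
  exact ((pow_left_inj₀ (n2_nonneg G x) (n2_nonneg G _) two_ne_zero).1 h3).symm

theorem n2_mul_le' (x y : (LG G).Elt) : n2 G (x * y) ≤ ‖y‖ * n2 G x := by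
  rw [← n2_star, star_mul, ← n2_star G x]
  have h := n2_mul_le G (star y) (star x)
  have h2 : ‖star y‖ = ‖y‖ := norm_star y
  rw [h2] at h
  exact h

variable {G} (U : Ultrafilter ℕ)

theorem same_iff (a b : ℕ → (LG G).Elt) :
    USame U (LG G) a b ↔ Tendsto (fun n => n2 G (a n - b n)) U (𝓝 0) := by
  unfold USame
  simp only [tr_n2]
  constructor
  · intro h
    have h1 : Tendsto (fun n => ‖((n2 G (a n - b n) : ℝ) : ℂ) ^ 2‖) U (𝓝 0) := by
      simpa using h.norm
    have h2 : Tendsto (fun n => √‖((n2 G (a n - b n) : ℝ) : ℂ) ^ 2‖) U (𝓝 0) := by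
      simpa [Function.comp_def] using (Real.continuous_sqrt.tendsto 0).comp h1
    refine h2.congr fun n => ?_
    rw [norm_pow, Real.sqrt_sq (norm_nonneg _), Complex.norm_real, Real.norm_of_nonneg
      (n2_nonneg G _)]
  · intro h
    have h1 : Tendsto (fun n => ((n2 G (a n - b n) : ℝ) : ℂ)) U (𝓝 ((0 : ℝ) : ℂ)) :=
      (Complex.continuous_ofReal.tendsto 0).comp h
    simpa using h1.pow 2

theorem same_refl (a : ℕ → (LG G).Elt) : USame U (LG G) a a := by
  rw [same_iff]
  have h : ∀ n, n2 G (a n - a n) = 0 := by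
    intro n
    rw [sub_self]
    change ‖(0 : ell2 G →L[ℂ] ell2 G) (delta 1)‖ = 0
    rw [zero_apply, norm_zero]
  simp only [h]
  exact tendsto_const_nhds

theorem same_trans {a b c : ℕ → (LG G).Elt} (h1 : USame U (LG G) a b) (h2 : USame U (LG G) b c) :
    USame U (LG G) a c := by
  rw [same_iff] at *
  refine squeeze_zero (fun n => n2_nonneg G _) (fun n => n2_sub_le G (a n) (b n) (c n)) ?_
  simpa using h1.add h2

theorem same_mul {a a' b b' : ℕ → (LG G).Elt} (Ca Cb : ℝ) (ha : ∀ n, ‖a n‖ ≤ Ca)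
    (hb : ∀ n, ‖b' n‖ ≤ Cb) (h1 : USame U (LG G) a a') (h2 : USame U (LG G) b b') :
    USame U (LG G) (fun n => a n * b n) (fun n => a' n * b' n) := by
  rw [same_iff] at *
  have key : ∀ n, n2 G (a n * b n - a' n * b' n) ≤
      Ca * n2 G (b n - b' n) + Cb * n2 G (a n - a' n) := by
    intro n
    refine (n2_sub_le G (a n * b n) (a n * b' n) (a' n * b' n)).trans ?_
    rw [← mul_sub, ← sub_mul]
    exact add_le_add
      ((n2_mul_le G _ _).trans (mul_le_mul_of_nonneg_right (ha n) (n2_nonneg G _)))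
      ((n2_mul_le' G _ _).trans (mul_le_mul_of_nonneg_right (hb n) (n2_nonneg G _)))
  refine squeeze_zero (fun n => n2_nonneg G _) key ?_
  simpa using (h2.const_mul Ca).add (h1.const_mul Cb)

theorem same_tr {a b : ℕ → (LG G).Elt} {c : ℂ} (h : USame U (LG G) a b)
    (ha : Tendsto (fun n => (LG G).tr (a n)) U (𝓝 c)) :
    Tendsto (fun n => (LG G).tr (b n)) U (𝓝 c) := by
  rw [same_iff] at h
  have key : ∀ n, ‖(LG G).tr (a n) - (LG G).tr (b n)‖ ≤ ‖(delta (1 : G) : ell2 G)‖ *
      n2 G (a n - b n) := by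
    intro n
    rw [← map_sub]
    exact norm_inner_le_norm (𝕜 := ℂ) (delta (1 : G) : ell2 G)
      (((a n - b n).1 : ell2 G →L[ℂ] ell2 G) (delta 1))
  have h1 : Tendsto (fun n => (LG G).tr (a n) - (LG G).tr (b n)) U (𝓝 0) := by
    rw [tendsto_zero_iff_norm_tendsto_zero]
    refine squeeze_zero (fun n => norm_nonneg _) key ?_
    simpa using h.const_mul ‖(delta (1 : G) : ell2 G)‖
  have h2 := ha.sub h1
  simpa using h2

end N3

theorem exi (h : PosStmt) : ExiStmt := by
  intro U G _ I φ hφ M ι ⟨θ, hbd, hone, hadd, hsmul, hmul, hstar, htr, hι⟩ ξ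
  -- the traces converge
  have hconv : ∀ l l' : (LG G).Elt,
      Tendsto (fun n => (LG G).tr (star (θ ξ n) * (l * θ ξ n * l'))) U
        (𝓝 (M.tr (star ξ * (ι.hom l * ξ * ι.hom l')))) := by
    intro l l'
    refine N3.same_tr U ?_ (htr (star ξ * (ι.hom l * ξ * ι.hom l')))
    obtain ⟨C1, hC1⟩ := hbd (star ξ)
    obtain ⟨C2, hC2⟩ := hbd ξ
    obtain ⟨C3, hC3⟩ := hbd (ι.hom l)
    obtain ⟨C4, hC4⟩ := hbd (ι.hom l * ξ)
    have e1 : USame U (LG G) (θ (ι.hom l * ξ)) (fun n => l * θ ξ n) := by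
      refine N3.same_trans U (hmul _ _) ?_
      refine N3.same_mul U C3 C2 hC3 hC2 (hι l) ?_
      exact N3.same_refl U _
    have e2 : USame U (LG G) (θ (ι.hom l * ξ * ι.hom l')) (fun n => l * θ ξ n * l') := by
      refine N3.same_trans U (hmul _ _) ?_
      exact N3.same_mul U C4 ‖l'‖ hC4 (fun _ => le_rfl) e1 (hι l')
    refine N3.same_trans U (hmul _ _) ?_
    refine N3.same_mul U C1 (‖l‖ * C2 * ‖l'‖) hC1 ?_ (hstar ξ) e2
    intro n
    refine (norm_mul_le _ _).trans (mul_le_mul_of_nonneg_right ?_ (norm_nonneg _))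
    exact (norm_mul_le _ _).trans (mul_le_mul_of_nonneg_left (hC2 n) (norm_nonneg _))
  have hconv2 : Tendsto (fun n => (LG G).tr (star (θ ξ n) * θ ξ n)) U (𝓝 (M.tr (star ξ * ξ))) := by
    have := hconv 1 1
    simpa using this
  have hR : Tendsto (fun n => (4 / 3 * (I : ℝ) + 8 * √I) *
      ((LG G).tr (star (θ ξ n) * θ ξ n)).re) U
      (𝓝 ((4 / 3 * (I : ℝ) + 8 * √I) * (M.tr (star ξ * ξ)).re)) :=
    ((Complex.continuous_re.tendsto _).comp hconv2).const_mul _
  have hL : Tendsto (fun n => ∑ i : Fin I, ∑ m ∈ Finset.Icc 1 3,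
      ‖(LG G).tr (star (θ ξ n) * ((⟨leftReg G (φ (FreeGroup.of i) ^ m), leftReg_mem G _⟩ :
        (LG G).Elt) * θ ξ n *
        (⟨leftReg G (φ (FreeGroup.of i))⁻¹, leftReg_mem G _⟩ : (LG G).Elt)))‖) U
      (𝓝 (∑ i : Fin I, ∑ m ∈ Finset.Icc 1 3,
      ‖M.tr (star ξ * (ι.hom ⟨leftReg G (φ (FreeGroup.of i) ^ m), leftReg_mem G _⟩ * ξ *
        ι.hom ⟨leftReg G (φ (FreeGroup.of i))⁻¹, leftReg_mem G _⟩))‖)) := by
    refine tendsto_finsetSum _ fun i _ => tendsto_finsetSum _ fun m _ => ?_
    exact (hconv _ _).norm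
  refine le_of_tendsto_of_tendsto' hL hR fun n => ?_
  have hp := h G I φ hφ ((θ ξ n).1 (delta (1 : G)) : ell2 G)
  have h1 : ((LG G).tr (star (θ ξ n) * θ ξ n)).re = ‖((θ ξ n).1 (delta (1 : G)) : ell2 G)‖ ^ 2 := by
    rw [N3.tr_n2]
    have : (((N3.n2 G (θ ξ n) : ℝ) : ℂ) ^ 2) = ((N3.n2 G (θ ξ n) ^ 2 : ℝ) : ℂ) := by push_cast; rfl
    rw [this, Complex.ofReal_re]
    rfl
  rw [h1]
  refine le_trans (le_of_eq ?_) hp
  refine Finset.sum_congr rfl fun i _ => Finset.sum_congr rfl fun m _ => ?_
  congr 1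
  have h2 := LGtr_star_mul G (θ ξ n)
    ((⟨leftReg G (φ (FreeGroup.of i) ^ m), leftReg_mem G _⟩ : (LG G).Elt) * θ ξ n *
        (⟨leftReg G (φ (FreeGroup.of i))⁻¹, leftReg_mem G _⟩ : (LG G).Elt))
  refine Eq.trans h2 ?_
  have h3 : (θ ξ n).1 (leftReg G (φ (FreeGroup.of i))⁻¹ (delta (1 : G))) =
      rightReg G (φ (FreeGroup.of i)) ((θ ξ n).1 (delta (1 : G)) : ell2 G) := by
    have h4 : leftReg G (φ (FreeGroup.of i))⁻¹ (delta (1 : G)) =
        rightReg G (φ (FreeGroup.of i)) (delta 1) := by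
      rw [leftReg_delta, rightReg_delta, mul_one, one_mul]
    rw [h4]
    have h5 := comm_rightReg G (θ ξ n).2 (φ (FreeGroup.of i))
    have h6 := congrArg (fun (S : ell2 G →L[ℂ] ell2 G) => S (delta 1)) h5
    exact h6.symm
  exact congrArg (fun v : ell2 G => ⟪((θ ξ n).1 (delta (1 : G)) : ell2 G),
    leftReg G (φ (FreeGroup.of i) ^ m) v⟫_ℂ) h3

end

end MP8a6869

end

section

/-!
# MP_8a6869_an: free subgroups of any rank and of infinite index [N4]
-/

namespace MP8a6869

noncomputable section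

/-- The shift action of the integers on the free group with basis the integers. -/
def n4Act : Multiplicative ℤ →* MulAut (FreeGroup ℤ) where
  toFun n := FreeGroup.freeGroupCongr (Equiv.addLeft n.toAdd)
  map_one' := by
    refine MulEquiv.toMonoidHom_injective (FreeGroup.ext_hom _ _ fun j => ?_)
    simp
  map_mul' m n := by
    refine MulEquiv.toMonoidHom_injective (FreeGroup.ext_hom _ _ fun j => ?_)
    simp [add_assoc]

/-- The elements `a^i b a^(-i)` of the free group of rank two. -/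
def n4Psi (I : ℕ) : FreeGroup (Fin I) →* FreeGroup (Fin 2) :=
  FreeGroup.lift fun i => FreeGroup.of 0 ^ (i : ℤ) * FreeGroup.of 1 * (FreeGroup.of 0 ^ (i : ℤ))⁻¹

/-- The embedding of the free group of rank two in the semidirect product. -/
def n4Rho : FreeGroup (Fin 2) →* FreeGroup ℤ ⋊[n4Act] Multiplicative ℤ :=
  FreeGroup.lift ![SemidirectProduct.inr (Multiplicative.ofAdd 1),
    SemidirectProduct.inl (FreeGroup.of 0)]

theorem n4_comp (I : ℕ) : n4Rho.comp (n4Psi I) =
    (SemidirectProduct.inl : FreeGroup ℤ →* FreeGroup ℤ ⋊[n4Act] Multiplicative ℤ).comp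
      (FreeGroup.map fun i : Fin I => ((i : ℕ) : ℤ)) := by
  refine FreeGroup.ext_hom _ _ fun i => ?_
  have h : n4Act (Multiplicative.ofAdd ((i : ℕ) : ℤ)) (FreeGroup.of 0) =
      FreeGroup.of ((i : ℕ) : ℤ) := by
    change FreeGroup.map _ (FreeGroup.of 0) = _
    simp
  rw [MonoidHom.comp_apply, MonoidHom.comp_apply, n4Psi, FreeGroup.lift_apply_of, FreeGroup.map.of,
    ← h, SemidirectProduct.inl_aut, map_mul, map_mul, map_inv, map_zpow, n4Rho,
    FreeGroup.lift_apply_of, FreeGroup.lift_apply_of]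
  simp only [Matrix.cons_val_zero, Matrix.cons_val_one]
  rw [← map_zpow, ← ofAdd_zsmul, smul_eq_mul, mul_one, map_inv]

theorem n4Psi_injective (I : ℕ) : Function.Injective (n4Psi I) := by
  have h1 : Function.Injective (n4Rho.comp (n4Psi I)) := by
    rw [n4_comp, MonoidHom.coe_comp]
    refine SemidirectProduct.inl_injective.comp (FreeGroup.map_injective ?_)
    intro i j hij
    have : ((i : ℕ) : ℤ) = ((j : ℕ) : ℤ) := hij
    exact Fin.ext (by exact_mod_cast this)
  rw [MonoidHom.coe_comp] at h1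
  exact h1.of_comp

/-- The homomorphism `a ↦ 1`, `b ↦ 0`. -/
def n4Chi : FreeGroup (Fin 2) →* Multiplicative ℤ :=
  FreeGroup.lift ![Multiplicative.ofAdd 1, 1]

theorem n4_index (I : ℕ) : (n4Psi I).range.index = 0 := by
  have h1 : (n4Psi I).range ≤ n4Chi.ker := by
    rintro _ ⟨x, rfl⟩
    rw [MonoidHom.mem_ker]
    have : n4Chi.comp (n4Psi I) = 1 := by
      refine FreeGroup.ext_hom _ _ fun i => ?_
      rw [MonoidHom.comp_apply, n4Psi, FreeGroup.lift_apply_of, map_mul, map_mul, map_inv, n4Chi,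
        FreeGroup.lift_apply_of]
      simp
    exact congrArg (fun f => f x) this
  have h2 : n4Chi.ker.index = 0 := by
    rw [Subgroup.index_ker]
    have hs : Function.Surjective n4Chi := by
      intro n
      refine ⟨FreeGroup.of 0 ^ (n.toAdd), ?_⟩
      rw [map_zpow, n4Chi, FreeGroup.lift_apply_of]
      simp only [Matrix.cons_val_zero]
      rw [← ofAdd_zsmul]
      simp
    rw [MonoidHom.range_eq_top.2 hs]
    rw [Nat.card_congr (Subgroup.topEquiv (G := Multiplicative ℤ)).toEquiv]
    exact Nat.card_eq_zero_of_infinite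
  have h3 := Subgroup.index_dvd_of_le h1
  rw [h2] at h3
  exact zero_dvd_iff.1 h3

theorem free : FreeStmt := by
  intro G _ f hf I
  refine ⟨f.comp (n4Psi I), ?_, ?_⟩
  · rw [MonoidHom.coe_comp]
    exact hf.comp (n4Psi_injective I)
  · by_contra h
    have h1 : (f.comp (n4Psi I)).range = (n4Psi I).range.map f := by
      rw [MonoidHom.range_eq_map, MonoidHom.range_eq_map, Subgroup.map_map]
    have h2 : ((f.comp (n4Psi I)).range.comap f).index ≠ 0 := by
      rw [Subgroup.index_comap]
      exact fun h3 => h (Subgroup.index_eq_zero_of_relIndex_eq_zero h3)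
    rw [h1, Subgroup.comap_map_eq_self_of_injective hf] at h2
    exact h2 (n4_index I)

end

end MP8a6869

end

section

/-!
# MP_8a6869_an: item P1 (trace of a product of positive elements)

The elementary proof: for `0 ≤ K_0 ≤ 1` put `K_{n+1} = K_n - K_n²`, then `0 ≤ K_n ≤ 1` and
`K_0 = K_0² + ... + K_{n-1}² + K_n`, the trace of `K_n²` tends to `0`.
-/

namespace MP8a6869

open scoped ComplexOrder
open Filter Topology

noncomputable section

section

variable {B : Type} [Ring B] [StarRing B] [Algebra ℂ B] [StarModule ℂ B]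

/-- The pre-inner product given by a trace. -/
@[reducible] def P1_core (T : TrAlg B) : PreInnerProductSpace.Core ℂ B where
  inner x y := T.τ (star x * y)
  conj_inner_symm x y := by
    rw [← T.τ_star, star_mul, star_star]
  re_inner_nonneg x := (Complex.nonneg_iff.1 (T.pos x)).1
  add_left x y z := by
    rw [star_add, add_mul, map_add]
  smul_left x y r := by
    rw [star_smul, smul_mul_assoc, map_smul, smul_eq_mul]
    rfl

theorem P1_cs (T : TrAlg B) (x y : B) :
    ‖T.τ (star x * y)‖ ^ 2 ≤ (T.τ (star x * x)).re * (T.τ (star y * y)).re := by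
  have h := @InnerProductSpace.Core.inner_mul_inner_self_le ℂ B _ _ _ (P1_core T) x y
  have h1 : ‖T.τ (star x * y)‖ * ‖T.τ (star y * x)‖ ≤
      (T.τ (star x * x)).re * (T.τ (star y * y)).re := h
  have h2 : T.τ (star y * x) = (starRingEnd ℂ) (T.τ (star x * y)) := by
    rw [← T.τ_star, star_mul, star_star]
  rw [h2, RCLike.norm_conj] at h1
  rwa [sq]

/-- Positivity with respect to the trace. -/
def P1_pos (T : TrAlg B) (x : B) : Prop := ∀ c, 0 ≤ T.τ (star c * x * c)

theorem P1_pos_add {T : TrAlg B} {x y : B} (hx : P1_pos T x) (hy : P1_pos T y) :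
    P1_pos T (x + y) := by
  intro c
  rw [mul_add, add_mul, map_add]
  exact add_nonneg (hx c) (hy c)

theorem P1_pos_smul {T : TrAlg B} {x : B} (r : ℝ) (hr : 0 ≤ r) (hx : P1_pos T x) :
    P1_pos T ((r : ℂ) • x) := by
  intro c
  rw [mul_smul_comm, smul_mul_assoc, map_smul, smul_eq_mul]
  exact mul_nonneg (by exact_mod_cast hr) (hx c)

theorem P1_pos_conj {T : TrAlg B} {x : B} (d : B) (hx : P1_pos T x) :
    P1_pos T (star d * x * d) := by
  intro c
  have h := hx (d * c)
  rw [star_mul] at h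
  simpa only [mul_assoc] using h

theorem P1_pos_sq (T : TrAlg B) (v : B) : P1_pos T (star v * v) := by
  intro c
  have h := T.pos (v * c)
  rw [star_mul] at h
  simpa only [mul_assoc] using h

theorem P1_pos_one (T : TrAlg B) : P1_pos T (1 : B) := by
  have := P1_pos_sq T (1 : B)
  rwa [star_one, one_mul] at this

theorem P1_pos_list (T : TrAlg B) (l : List B) : P1_pos T (l.map fun v => star v * v).sum := by
  induction l with
  | nil => intro c; simp
  | cons v l ih =>
    rw [List.map_cons, List.sum_cons]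
    exact P1_pos_add (P1_pos_sq T v) ih

/-- The iteration. -/
def P1_K (k : B) : ℕ → B
  | 0 => k
  | n + 1 => P1_K k n - P1_K k n * P1_K k n

theorem P1_K_facts (T : TrAlg B) {k : B} (hs : star k = k) (h0 : P1_pos T k)
    (h1 : P1_pos T (1 - k)) (n : ℕ) : star (P1_K k n) = P1_K k n ∧ P1_pos T (P1_K k n) ∧
      P1_pos T (1 - P1_K k n) := by
  induction n with
  | zero => exact ⟨hs, h0, h1⟩
  | succ n ih =>
    obtain ⟨a, b, c⟩ := ih
    refine ⟨?_, ?_, ?_⟩
    · rw [P1_K, star_sub, star_mul, a]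
    · have e1 := P1_pos_conj (P1_K k n) c
      have e2 := P1_pos_conj (1 - P1_K k n) b
      have e3 := P1_pos_add e1 e2
      rw [star_sub, star_one, a] at e3
      convert e3 using 1
      rw [P1_K]
      noncomm_ring
    · have e3 := P1_pos_add c (P1_pos_sq T (P1_K k n))
      rw [a] at e3
      convert e3 using 1
      rw [P1_K]
      noncomm_ring

theorem P1_K_sum (k : B) (n : ℕ) :
    k = ∑ j ∈ Finset.range n, P1_K k j * P1_K k j + P1_K k n := by
  induction n with
  | zero => simp [P1_K]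
  | succ n ih =>
    rw [Finset.sum_range_succ, P1_K]
    conv_lhs => rw [ih]
    abel

theorem P1_main (T : TrAlg B) {k y : B} (hs : star k = k) (h0 : P1_pos T k)
    (h1 : P1_pos T (1 - k)) (hy : P1_pos T y) : 0 ≤ T.τ (k * y) := by
  have hf := P1_K_facts T hs h0 h1
  have hsq : ∀ n, 0 ≤ (T.τ (P1_K k n * P1_K k n)).re := by
    intro n
    have := T.pos (P1_K k n)
    rw [(hf n).1] at this
    exact (Complex.nonneg_iff.1 this).1
  have hK : ∀ n, 0 ≤ (T.τ (P1_K k n)).re := by
    intro n
    have := (hf n).2.1 1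
    rw [star_one, one_mul, mul_one] at this
    exact (Complex.nonneg_iff.1 this).1
  have hsum : Summable fun n => (T.τ (P1_K k n * P1_K k n)).re := by
    apply summable_of_sum_range_le (c := (T.τ k).re) hsq
    intro n
    have := congrArg (fun z => (T.τ z).re) (P1_K_sum k n)
    simp only [map_add, map_sum, Complex.add_re, Complex.re_sum] at this
    have h2 := hK n
    linarith
  have hlim := hsum.tendsto_atTop_zero
  have hlim2 : Tendsto (fun n => T.τ (P1_K k n * y)) atTop (𝓝 0) := by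
    rw [tendsto_zero_iff_norm_tendsto_zero]
    have h3 : Tendsto (fun n => ‖T.τ (P1_K k n * y)‖ ^ 2) atTop (𝓝 0) := by
      apply squeeze_zero (fun n => sq_nonneg _)
        (g := fun n => (T.τ (P1_K k n * P1_K k n)).re * (T.τ (star y * y)).re)
      · intro n
        have := P1_cs T (P1_K k n) y
        rwa [(hf n).1] at this
      · have := hlim.mul_const (T.τ (star y * y)).re
        rwa [zero_mul] at this
    have h4 := (Real.continuous_sqrt.tendsto 0).comp h3
    rw [Real.sqrt_zero] at h4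
    refine h4.congr fun n => ?_
    exact Real.sqrt_sq (norm_nonneg _)
  have hge : ∀ n, 0 ≤ T.τ (k * y) - T.τ (P1_K k n * y) := by
    intro n
    have e : k * y - P1_K k n * y = ∑ j ∈ Finset.range n, P1_K k j * P1_K k j * y := by
      have h : k - P1_K k n = ∑ j ∈ Finset.range n, P1_K k j * P1_K k j := by
        rw [sub_eq_iff_eq_add]
        exact P1_K_sum k n
      rw [← sub_mul, h, Finset.sum_mul]
    rw [← map_sub, e, map_sum]
    refine Finset.sum_nonneg fun j _ => ?_
    rw [mul_assoc, T.comm]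
    have := hy (P1_K k j)
    rwa [(hf j).1] at this
  have hlim3 : Tendsto (fun n => T.τ (k * y) - T.τ (P1_K k n * y)) atTop (𝓝 (T.τ (k * y))) := by
    have := hlim2.const_sub (T.τ (k * y))
    rwa [sub_zero] at this
  exact ge_of_tendsto' hlim3 hge

end

theorem psdt : PSDTStmt := by
  intro B _ _ _ _ T hdom k y hk hy
  -- replace `k` by its real part
  have hw : T.τ (star k * y) = T.τ (k * y) := by
    have hq : ∀ c, T.τ (star c * (star k) * c) = T.τ (star c * k * c) := by
      intro c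
      have h1 : star (star c * k * c) = star c * star k * c := by
        simp only [star_mul, star_star, mul_assoc]
      rw [← h1, T.τ_star]
      exact Complex.conj_eq_iff_im.2 (Complex.nonneg_iff.1 (hk c)).2.symm
    have e0 := hq y
    have e1 := hq 1
    have e2 := hq (y + 1)
    have e3 := hq (y + Complex.I • 1)
    simp only [star_add, star_one, star_smul, add_mul, mul_add, map_add, one_mul, mul_one,
      smul_mul_assoc, mul_smul_comm, map_smul, smul_eq_mul, RCLike.star_def, Complex.conj_I]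
      at e0 e1 e2 e3
    rw [e0, e1] at e2 e3
    have e4 : T.τ (star k * y) + T.τ (star y * star k) = T.τ (k * y) + T.τ (star y * k) := by
      linear_combination e2
    have e5 : T.τ (star y * star k) - T.τ (star k * y) = T.τ (star y * k) - T.τ (k * y) := by
      have hI : Complex.I ≠ 0 := Complex.I_ne_zero
      apply mul_left_cancel₀ hI
      linear_combination e3
    linear_combination (e4 - e5) / 2
  obtain ⟨κ, l, hκ⟩ := hdom (((1 / 2 : ℝ) : ℂ) • (k + star k))
  set k' : B := ((1 / 2 : ℝ) : ℂ) • (k + star k) with hk'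
  have hs : star k' = k' := by
    rw [hk', star_smul, star_add, star_star, add_comm (star k) k]
    congr 1
    exact Complex.conj_ofReal _
  have hpk : P1_pos T k := hk
  have hpk' : P1_pos T k' := by
    apply P1_pos_smul _ (by norm_num)
    apply P1_pos_add hpk
    intro c
    have h1 : star (star c * k * c) = star c * star k * c := by
      simp only [star_mul, star_star, mul_assoc]
    rw [← h1, T.τ_star, Complex.conj_eq_iff_im.2 (Complex.nonneg_iff.1 (hk c)).2.symm]
    exact hk c
  have hky : T.τ (k * y) = T.τ (k' * y) := by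
    rw [hk', smul_mul_assoc, map_smul, add_mul, map_add, hw, smul_eq_mul]
    push_cast
    ring
  clear_value k'
  set κ' : ℝ := max κ 0 with hκ'
  have hM : 0 < (κ' + 1) / 2 := by
    have : 0 ≤ κ' := le_max_right _ _
    linarith
  set M : ℝ := (κ' + 1) / 2 with hMdef
  have hub : P1_pos T ((M : ℂ) • (1 : B) - k') := by
    have e1 : P1_pos T (((κ' - κ : ℝ) : ℂ) • (1 : B) + (l.map fun v => star v * v).sum) :=
      P1_pos_add (P1_pos_smul _ (sub_nonneg.2 (le_max_left _ _)) (P1_pos_one T))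
        (P1_pos_list T l)
    have e2 := P1_pos_smul (1 / 2 : ℝ) (by norm_num) (P1_pos_add e1 (P1_pos_sq T (1 - k')))
    convert e2 using 1
    have h3 : (l.map fun v => star v * v).sum = (κ : ℂ) • (1 : B) - k' * k' := by
      rw [← hκ, hs]; abel
    rw [h3, star_sub, star_one, hs, hMdef]
    have h4 : (1 - k') * (1 - k') = 1 - (2 : ℂ) • k' + k' * k' := by
      rw [two_smul]; noncomm_ring
    rw [h4]
    push_cast
    module
  have hfin := P1_main T (k := ((M⁻¹ : ℝ) : ℂ) • k') (y := y) (by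
      rw [star_smul, hs]
      congr 1
      exact Complex.conj_ofReal _) (P1_pos_smul _ (inv_nonneg.2 hM.le) hpk') (by
      have e1 := P1_pos_smul M⁻¹ (inv_nonneg.2 hM.le) hub
      convert e1 using 1
      rw [smul_sub, smul_smul, ← Complex.ofReal_mul, inv_mul_cancel₀ hM.ne', Complex.ofReal_one,
        one_smul]) hy
  rw [hky]
  have h5 : k' = (M : ℂ) • (((M⁻¹ : ℝ) : ℂ) • k') := by
    rw [smul_smul, ← Complex.ofReal_mul, mul_inv_cancel₀ hM.ne', Complex.ofReal_one, one_smul]
  rw [h5, smul_mul_assoc, map_smul, smul_eq_mul]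
  exact mul_nonneg (by exact_mod_cast hM.le) hfin

end

end MP8a6869

end

section

/-!
# MP_8a6869_an: item P2 (dominated elements)
-/

namespace MP8a6869

open MonoidAlgebra
open scoped ComplexOrder

noncomputable section

/-- Sums of elements `v^* v`. -/
def P2_SOS {A : Type} [Ring A] [StarRing A] (x : A) : Prop :=
  ∃ l : List A, (l.map fun v => star v * v).sum = x

section

variable {A : Type} [Ring A] [StarRing A]

theorem P2_sos_zero : P2_SOS (0 : A) := ⟨[], rfl⟩

theorem P2_sos_add {x y : A} (hx : P2_SOS x) (hy : P2_SOS y) : P2_SOS (x + y) := by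
  obtain ⟨l, rfl⟩ := hx
  obtain ⟨m, rfl⟩ := hy
  exact ⟨l ++ m, by rw [List.map_append, List.sum_append]⟩

theorem P2_sos_sq (v : A) : P2_SOS (star v * v) := ⟨[v], by simp⟩

theorem P2_sos_sum {ι : Type} (s : Finset ι) (f : ι → A) (h : ∀ i ∈ s, P2_SOS (f i)) :
    P2_SOS (∑ i ∈ s, f i) :=
  Finset.sum_induction f P2_SOS (fun _ _ => P2_sos_add) P2_sos_zero h

theorem P2_sos_conj {x : A} (c : A) (hx : P2_SOS x) : P2_SOS (star c * x * c) := by
  obtain ⟨l, rfl⟩ := hx
  refine ⟨l.map (fun v => v * c), ?_⟩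
  induction l with
  | nil => simp
  | cons v l ih =>
    simp only [List.map_cons, List.sum_cons] at ih ⊢
    rw [ih, star_mul, mul_add, add_mul]
    simp only [mul_assoc]

variable [Algebra ℂ A] [StarModule ℂ A]

theorem P2_sq_smul (r : ℝ) (hr : 0 ≤ r) (v : A) :
    star (((Real.sqrt r : ℝ) : ℂ) • v) * (((Real.sqrt r : ℝ) : ℂ) • v) =
      (r : ℂ) • (star v * v) := by
  rw [star_smul, smul_mul_smul_comm]
  congr 1
  have h1 : star ((Real.sqrt r : ℝ) : ℂ) = ((Real.sqrt r : ℝ) : ℂ) := Complex.conj_ofReal _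
  rw [h1, ← Complex.ofReal_mul, Real.mul_self_sqrt hr]

theorem P2_sos_smul {x : A} (r : ℝ) (hr : 0 ≤ r) (hx : P2_SOS x) : P2_SOS ((r : ℂ) • x) := by
  obtain ⟨l, rfl⟩ := hx
  refine ⟨l.map (fun v => ((Real.sqrt r : ℝ) : ℂ) • v), ?_⟩
  induction l with
  | nil => simp
  | cons v l ih =>
    simp only [List.map_cons, List.sum_cons] at ih ⊢
    rw [ih, P2_sq_smul r hr, smul_add]

theorem P2_sos_one (r : ℝ) (hr : 0 ≤ r) : P2_SOS ((r : ℂ) • (1 : A)) := by
  have h := P2_sos_smul r hr (P2_sos_sq (1 : A))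
  rwa [star_one, one_mul] at h

theorem P2_dom_iff {a : A} :
    Dominated a ↔ ∃ κ : ℝ, 0 ≤ κ ∧ P2_SOS ((κ : ℂ) • (1 : A) - star a * a) := by
  constructor
  · rintro ⟨κ, l, h⟩
    refine ⟨max κ 0, le_max_right _ _, ?_⟩
    have h1 : (((max κ 0 : ℝ) : ℂ)) • (1 : A) - star a * a =
        ((max κ 0 - κ : ℝ) : ℂ) • (1 : A) + (l.map fun v => star v * v).sum := by
      rw [Complex.ofReal_sub, sub_smul, ← h]
      abel
    rw [h1]
    exact P2_sos_add (P2_sos_one _ (sub_nonneg.2 (le_max_left _ _))) ⟨l, rfl⟩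
  · rintro ⟨κ, _, l, h⟩
    exact ⟨κ, l, by rw [h]; abel⟩

theorem P2_dom_add {a b : A} (ha : Dominated a) (hb : Dominated b) : Dominated (a + b) := by
  rw [P2_dom_iff] at *
  obtain ⟨κ, hκ, h1⟩ := ha
  obtain ⟨κ', hκ', h2⟩ := hb
  refine ⟨2 * κ + 2 * κ', by positivity, ?_⟩
  have h3 := P2_sos_add (P2_sos_add (P2_sos_add h1 h1) (P2_sos_add h2 h2))
    (P2_sos_sq (a - b))
  convert h3 using 1
  rw [star_add, star_sub]
  simp only [Complex.ofReal_add, two_mul, add_smul,
    mul_add, add_mul, mul_sub, sub_mul]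
  abel

theorem P2_dom_mul {a b : A} (ha : Dominated a) (hb : Dominated b) : Dominated (a * b) := by
  rw [P2_dom_iff] at *
  obtain ⟨κ, hκ, h1⟩ := ha
  obtain ⟨κ', hκ', h2⟩ := hb
  refine ⟨κ * κ', by positivity, ?_⟩
  have h3 := P2_sos_add (P2_sos_conj b h1) (P2_sos_smul κ hκ h2)
  convert h3 using 1
  rw [star_mul, smul_sub, mul_sub, sub_mul, Complex.ofReal_mul, mul_smul, mul_smul_comm,
    mul_one, smul_mul_assoc]
  simp only [mul_assoc]
  abel

theorem P2_dom_iso {u : A} (hu : star u * u = 1) : Dominated u :=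
  ⟨1, [], by simp [hu]⟩

theorem P2_dom_zero : Dominated (0 : A) := ⟨0, [], by simp⟩

theorem P2_dom_sum {ι : Type} (s : Finset ι) (f : ι → A) (h : ∀ i ∈ s, Dominated (f i)) :
    Dominated (∑ i ∈ s, f i) :=
  Finset.sum_induction f Dominated (fun _ _ => P2_dom_add) P2_dom_zero h

theorem P2_dom_hom {B : Type} [Ring B] [StarRing B] [Algebra ℂ B] (f : B →+* A)
    (hs : ∀ b, f (star b) = star (f b)) (hc : ∀ (κ : ℝ), f ((κ : ℂ) • (1 : B)) = (κ : ℂ) • (1 : A))
    {b : B} (hb : Dominated b) : Dominated (f b) := by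
  obtain ⟨κ, l, h⟩ := hb
  refine ⟨κ, l.map f, ?_⟩
  have h1 := congrArg f h
  rw [hc, map_add, map_mul, hs, map_list_sum, List.map_map] at h1
  rw [← h1, List.map_map]
  congr 2
  apply List.map_congr_left
  intro v _
  simp [hs]

end

theorem P2_dom_unit {B : Type} [Ring B] [StarRing B] [Algebra ℂ B] [StarModule ℂ B] {n : Type}
    [Fintype n] [DecidableEq n] (i j : n) : Dominated (Matrix.single i j (1 : B)) := by
  rw [P2_dom_iff]
  refine ⟨1, zero_le_one, ?_⟩
  have h1 : star (Matrix.single i j (1 : B)) * Matrix.single i j 1 = Matrix.single j j 1 := by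
    rw [Matrix.star_eq_conjTranspose, Matrix.conjTranspose_single, star_one,
      Matrix.single_mul_single_same, mul_one]
  have h2 : (((1 : ℝ) : ℂ)) • (1 : Matrix n n B) =
      Matrix.single j j 1 + ∑ l ∈ Finset.univ.erase j, Matrix.single l l (1 : B) := by
    rw [Complex.ofReal_one, one_smul,
      Finset.add_sum_erase Finset.univ (fun l => Matrix.single l l (1 : B)) (Finset.mem_univ j)]
    ext a b
    rw [Matrix.sum_apply, Matrix.one_apply]
    simp only [Matrix.single_apply]
    by_cases hab : a = b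
    · subst hab
      simp
    · rw [if_neg hab]
      symm
      apply Finset.sum_eq_zero
      intro l _
      rw [if_neg]
      rintro ⟨rfl, rfl⟩
      exact hab rfl
  rw [h1, h2, add_sub_cancel_left]
  apply P2_sos_sum
  intro l _
  have h3 : star (Matrix.single l l (1 : B)) * Matrix.single l l 1 = Matrix.single l l 1 := by
    rw [Matrix.star_eq_conjTranspose, Matrix.conjTranspose_single, star_one,
      Matrix.single_mul_single_same, mul_one]
  rw [← h3]
  exact P2_sos_sq _

theorem P2_dom_scalar {B : Type} [Ring B] [StarRing B] [Algebra ℂ B] [StarModule ℂ B] {n : Type}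
    [Fintype n] [DecidableEq n] {b : B} (hb : Dominated b) :
    Dominated (Matrix.scalar n b : Matrix n n B) := by
  obtain ⟨κ, l, h⟩ := hb
  refine ⟨κ, l.map (Matrix.scalar n), ?_⟩
  have hs : ∀ b : B, star (Matrix.scalar n b) = Matrix.scalar n (star b) := by
    intro b
    rw [Matrix.scalar_apply, Matrix.scalar_apply, Matrix.star_eq_conjTranspose,
      Matrix.diagonal_conjTranspose]
    rfl
  have hc : Matrix.scalar n ((κ : ℂ) • (1 : B)) = (κ : ℂ) • (1 : Matrix n n B) := by
    rw [Matrix.scalar_apply]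
    ext a b
    rw [Matrix.diagonal_apply, Matrix.smul_apply, Matrix.one_apply]
    split_ifs <;> simp
  rw [← hc, ← h, map_add, map_mul, hs, map_list_sum, List.map_map, List.map_map]
  congr 2
  apply List.map_congr_left
  intro v _
  simp only [Function.comp_apply, hs, map_mul]

theorem dom : DomStmt := by
  refine ⟨?_, ?_, ?_⟩
  · intro z
    refine ⟨‖z‖ ^ 2, [], ?_⟩
    simp only [List.map_nil, List.sum_nil, add_zero, smul_eq_mul, mul_one]
    have := Complex.conj_mul' z
    simpa using this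
  · intro B _ _ _ _ hB n _ _ X
    rw [Matrix.matrix_eq_sum_single X]
    refine P2_dom_sum _ _ fun i _ => P2_dom_sum _ _ fun j _ => ?_
    have h1 : Matrix.single i j (X i j) = Matrix.single i j 1 * Matrix.scalar n (X i j) := by
      ext a b
      rw [Matrix.scalar_apply, Matrix.mul_diagonal, Matrix.single_apply, Matrix.single_apply,
        ite_mul, one_mul, zero_mul]
    rw [h1]
    exact P2_dom_mul (P2_dom_unit i j) (P2_dom_scalar (hB _))
  · intro R _ _ _ _ hR G _ x
    classical
    induction x using MonoidAlgebra.induction_linear with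
    | zero => exact P2_dom_zero
    | add x y hx hy => exact P2_dom_add hx hy
    | single g r =>
      have h1 : (single g r : MonoidAlgebra R G) = single g 1 * single 1 r := by
        rw [single_mul_single, mul_one, one_mul]
      rw [h1]
      refine P2_dom_mul (P2_dom_iso ?_) ?_
      · rw [star_single_ma, single_mul_single, inv_mul_cancel, star_one, one_mul, one_def]
      · refine P2_dom_hom (MonoidAlgebra.singleOneRingHom : R →+* MonoidAlgebra R G) ?_ ?_ (hR r)
        · intro b
          change single 1 (star b) = star (single 1 b : MonoidAlgebra R G)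
          rw [star_single_ma, inv_one]
        · intro κ
          change single 1 ((κ : ℂ) • (1 : R)) = (κ : ℂ) • (1 : MonoidAlgebra R G)
          rw [one_def, smul_single]

end

end MP8a6869

end

section

/-!
# MP_8a6869_an, item P3: a conditional expectation pair gives a covariance
-/

set_option linter.unusedSectionVars false

namespace MP8a6869

open scoped InnerProductSpace ComplexOrder

noncomputable section

section P3

variable {A B : Type} [Ring A] [StarRing A] [Algebra ℂ A] [StarModule ℂ A] [Ring B] [StarRing B]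
  [Algebra ℂ B] [StarModule ℂ B] {TA : TrAlg A} {TB : TrAlg B}

theorem CondPair.P_star (CP : CondPair TA TB) (hnd : ∀ b : B, (∀ c, TB.τ (b * c) = 0) → b = 0)
    (x : A) : CP.P (star x) = star (CP.P x) := by
  rw [← sub_eq_zero]
  refine hnd _ fun b => ?_
  rw [sub_mul, map_sub, sub_eq_zero, CP.adj]
  have h1 : star x * CP.Θ b = star (CP.Θ (star b) * x) := by
    rw [star_mul, map_star, star_star]
  have h2 : star (CP.P x) * b = star (star b * CP.P x) := by
    rw [star_mul, star_star]
  rw [h1, TA.τ_star, TA.comm, ← CP.adj, h2, TB.τ_star, TB.comm]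

theorem CondPair.P_one (CP : CondPair TA TB) (hnd : ∀ b : B, (∀ c, TB.τ (b * c) = 0) → b = 0) :
    CP.P 1 = 1 := by
  rw [← sub_eq_zero]
  refine hnd _ fun b => ?_
  rw [sub_mul, map_sub, sub_eq_zero, CP.adj, one_mul, one_mul, CP.tr_Θ]

/-- Positivity of `P(H_ij)` over `B`. -/
theorem CondPair.P_pos (CP : CondPair TA TB) {n : Type} [Fintype n] (H : n → n → A)
    (hH : ∀ c : n → A, 0 ≤ ∑ i, ∑ j, TA.τ (star (c i) * H i j * c j)) (b : n → B) :
    0 ≤ ∑ i, ∑ j, TB.τ (star (b i) * CP.P (H i j) * b j) := by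
  have h := hH fun i => CP.Θ (b i)
  refine le_of_le_of_eq h ?_
  refine Finset.sum_congr rfl fun i _ => Finset.sum_congr rfl fun j _ => ?_
  have h1 : TB.τ (star (b i) * CP.P (H i j) * b j) =
      TB.τ (CP.P (H i j) * (b j * star (b i))) := by
    rw [mul_assoc, TB.comm, mul_assoc]
  rw [h1, CP.adj, map_mul CP.Θ, map_star CP.Θ, ← mul_assoc, TA.comm (H i j * CP.Θ (b j)),
    ← mul_assoc]

theorem TrAlg.mat_pos {T : TrAlg B} {n : Type} [Fintype n] [DecidableEq n]
    (K : Matrix n n B) (hK : ∀ b : n → B, 0 ≤ ∑ i, ∑ j, T.τ (star (b i) * K i j * b j))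
    (C : Matrix n n B) : 0 ≤ (T.mat n).τ (star C * K * C) := by
  rw [TrAlg.mat_apply]
  refine Finset.sum_nonneg fun l _ => ?_
  have h1 : T.τ ((star C * K * C) l l) = ∑ i, ∑ j, T.τ (star (C i l) * K i j * C j l) := by
    simp only [Matrix.mul_apply, Finset.sum_mul, map_sum, Matrix.star_apply]
    exact Finset.sum_comm
  rw [h1]
  exact hK fun i => C i l

/-- [P3] A conditional expectation pair defines a covariance. -/
theorem cov (h : PSDTStmt) : CovStmt := by
  intro A B _ _ _ _ _ _ _ _ TA TB CP hdom hnd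
  have hE : ∀ x, (CP.Θ.toAlgHom.toLinearMap ∘ₗ CP.P) x = CP.Θ (CP.P x) := fun x => rfl
  refine ⟨⟨CP.Θ.toAlgHom.toLinearMap ∘ₗ CP.P, ?_, ?_, ?_, ?_⟩, fun x => rfl⟩
  · intro x
    rw [hE, hE, CP.P_star hnd, map_star]
  · rw [hE, CP.P_one hnd, map_one]
  · intro x y
    rw [hE, hE, TA.comm, ← CP.adj, ← CP.adj, TB.comm]
  · intro n _ H hH c
    classical
    have key : ∑ i, ∑ j, TA.τ (star (c i) * (CP.Θ.toAlgHom.toLinearMap ∘ₗ CP.P) (H i j) * c j) =
        (TB.mat n).τ (Matrix.of (fun i j => CP.P (H i j)) *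
          Matrix.of (fun j i => CP.P (c j * star (c i)))) := by
      rw [TrAlg.mat_apply]
      simp only [Matrix.mul_apply, map_sum, Matrix.of_apply]
      refine Finset.sum_congr rfl fun i _ => Finset.sum_congr rfl fun j _ => ?_
      rw [hE, TB.comm, CP.adj, TA.comm, ← mul_assoc]
    rw [key]
    refine h (Matrix n n B) (TB.mat n) (fun X => hdom n X) _ _ (TrAlg.mat_pos _ ?_)
      (TrAlg.mat_pos _ ?_)
    · intro b
      exact CP.P_pos H hH b
    · intro b
      refine CP.P_pos (fun j i => c j * star (c i)) (fun d => ?_) b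
      have hz := TA.pos (∑ j, star (c j) * d j)
      refine le_of_le_of_eq hz ?_
      rw [star_sum, Finset.sum_mul, map_sum]
      refine Finset.sum_congr rfl fun i _ => ?_
      rw [Finset.mul_sum, map_sum]
      refine Finset.sum_congr rfl fun j _ => ?_
      rw [star_mul, star_star]
      simp only [mul_assoc]

end P3

end

end MP8a6869

end

section

/-!
# MP_8a6869_an: item T1 (the support of the representation theta)
-/

namespace MP8a6869

open MonoidAlgebra
open scoped Pointwise

noncomputable section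

theorem T1_coeff_mul {R G : Type} [Ring R] [Group G] {a b : MonoidAlgebra R G} {g : G}
    (h : (a * b).coeff g ≠ 0) : ∃ u v, a.coeff u ≠ 0 ∧ b.coeff v ≠ 0 ∧ u * v = g := by
  classical
  have h1 : g ∈ (a * b).coeff.support := Finsupp.mem_support_iff.2 h
  have h2 := support_coeff_mul_subset a b h1
  obtain ⟨u, hu, v, hv, huv⟩ := Finset.mem_mul.1 h2
  exact ⟨u, v, Finsupp.mem_support_iff.1 hu, Finsupp.mem_support_iff.1 hv, huv⟩

variable {G : Type} [Group G]

theorem T1_Uelt {b g : G} (h : (Uelt b).coeff g ≠ 0) : ∃ m : ℕ, 1 ≤ m ∧ b ^ m = g := by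
  classical
  by_contra hcon
  push Not at hcon
  apply h
  have h1 : ¬ b = g := by
    have := hcon 1 le_rfl
    rwa [pow_one] at this
  rw [Uelt, coeff_add, coeff_add, Finsupp.add_apply, Finsupp.add_apply, coeff_single,
    coeff_single, coeff_single, Finsupp.single_apply, Finsupp.single_apply,
    Finsupp.single_apply, if_neg h1, if_neg (hcon 2 (by norm_num)),
    if_neg (hcon 3 (by norm_num)), add_zero, add_zero]

theorem T1_star_Uelt {b g : G} (h : (star (Uelt b)).coeff g ≠ 0) :
    ∃ m : ℕ, 1 ≤ m ∧ b⁻¹ ^ m = g := by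
  rw [star_coeff] at h
  have h1 : (Uelt b).coeff g⁻¹ ≠ 0 := by
    intro h0
    apply h
    rw [h0, star_zero]
  obtain ⟨m, hm, h2⟩ := T1_Uelt h1
  exact ⟨m, hm, by rw [inv_pow, h2, inv_inv]⟩

theorem T1_replicate {I : ℕ} (a : Fin I × Bool) (m : ℕ) :
    FreeGroup.mk (List.replicate m a) = FreeGroup.mk [a] ^ m := by
  induction m with
  | zero => rfl
  | succ m ih =>
    rw [pow_succ', ← ih, FreeGroup.mul_mk, List.replicate_succ]
    rfl

theorem T1_letter {I : ℕ} (φ : FreeGroup (Fin I) →* G) (a : Fin I × Bool) {g : G}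
    (h : (theta φ (FreeGroup.mk [a]) : AG G).coeff g ≠ 0) :
    ∃ m : ℕ, 1 ≤ m ∧ φ (FreeGroup.mk (List.replicate m a)) = g := by
  obtain ⟨i, s⟩ := a
  cases s with
  | true =>
    have h1 : (FreeGroup.mk [(i, true)] : FreeGroup (Fin I)) = FreeGroup.of i := rfl
    rw [h1, theta_of] at h
    obtain ⟨m, hm, h2⟩ := T1_Uelt h
    exact ⟨m, hm, by rw [T1_replicate, map_pow, h1, h2]⟩
  | false =>
    have h1 : (FreeGroup.mk [(i, false)] : FreeGroup (Fin I)) = (FreeGroup.of i)⁻¹ := rfl
    have h3 : (theta φ (FreeGroup.mk [(i, false)]) : AG G) =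
        star (Uelt (φ (FreeGroup.of i))) := by
      rw [h1, map_inv, ← Unitary.star_eq_inv, Unitary.coe_star, theta_of]
    rw [h3] at h
    obtain ⟨m, hm, h2⟩ := T1_star_Uelt h
    exact ⟨m, hm, by rw [T1_replicate, map_pow, h1, map_inv, h2]⟩

theorem T1_main {I : ℕ} (φ : FreeGroup (Fin I) →* G) : ∀ L : List (Fin I × Bool),
    FreeGroup.IsReduced L → ∀ g : G, (theta φ (FreeGroup.mk L) : AG G).coeff g ≠ 0 →
    ∃ L' : List (Fin I × Bool), FreeGroup.IsReduced L' ∧ φ (FreeGroup.mk L') = g ∧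
      L.length ≤ L'.length ∧ L'.head? = L.head? := by
  intro L
  induction L with
  | nil =>
    intro _ g hg
    classical
    refine ⟨[], FreeGroup.IsReduced.nil, ?_, le_rfl, rfl⟩
    have h1 : (theta φ (FreeGroup.mk []) : AG G) = single 1 1 := by
      rw [← FreeGroup.one_eq_mk, map_one, OneMemClass.coe_one, one_def]
    rw [h1, coeff_single, Finsupp.single_apply] at hg
    rw [← FreeGroup.one_eq_mk, map_one]
    by_contra hne
    exact hg (if_neg hne)
  | cons a L ih =>
    intro hL g hg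
    have hL' : (∀ y ∈ L.head?, a.1 = y.1 → a.2 = y.2) ∧ FreeGroup.IsReduced L := by
      have := hL
      rw [FreeGroup.IsReduced, List.isChain_cons] at this
      exact this
    have h1 : (theta φ (FreeGroup.mk (a :: L)) : AG G) =
        (theta φ (FreeGroup.mk [a]) : AG G) * (theta φ (FreeGroup.mk L) : AG G) := by
      have h2 : (FreeGroup.mk (a :: L) : FreeGroup (Fin I)) =
          FreeGroup.mk [a] * FreeGroup.mk L := by
        rw [FreeGroup.mul_mk]
        rfl
      rw [h2, map_mul]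
      rfl
    rw [h1] at hg
    obtain ⟨u, v, hu, hv, rfl⟩ := T1_coeff_mul hg
    obtain ⟨m, hm, rfl⟩ := T1_letter φ a hu
    obtain ⟨L', hr, rfl, hlen, hhead⟩ := ih hL'.2 v hv
    refine ⟨List.replicate m a ++ L', ?_, ?_, ?_, ?_⟩
    · rw [FreeGroup.IsReduced, List.isChain_append]
      refine ⟨List.isChain_replicate_of_rel _ (fun _ => rfl), hr, ?_⟩
      intro x hx y hy
      have hx' : x = a := by
        have := List.mem_of_mem_getLast? hx
        exact List.eq_of_mem_replicate this
      rw [hx']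
      rw [hhead] at hy
      exact hL'.1 y hy
    · rw [← FreeGroup.mul_mk, map_mul]
    · rw [List.length_append, List.length_replicate, List.length_cons]
      omega
    · obtain ⟨k, rfl⟩ : ∃ k, m = k + 1 := ⟨m - 1, by omega⟩
      rw [List.replicate_succ]
      rfl

theorem thetaSupp : ThetaSuppStmt := by
  intro G _ I φ f g h
  have h1 : FreeGroup.mk f.toWord = f := FreeGroup.mk_toWord
  rw [← h1] at h
  obtain ⟨L', hr, hg, hlen, _⟩ := T1_main φ f.toWord FreeGroup.isReduced_toWord g h
  refine ⟨FreeGroup.mk L', hg, ?_⟩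
  rw [FreeGroup.norm, FreeGroup.norm, FreeGroup.toWord_mk, hr.reduce_eq]
  exact hlen

end

end MP8a6869

end

section

/-!
# MP_8a6869_an: item T3 (B. H. Neumann)
-/

namespace MP8a6869

open MonoidAlgebra
open scoped Pointwise

noncomputable section

theorem T3_coeff_mul {R G : Type} [Ring R] [Group G] {a b : MonoidAlgebra R G} {g : G}
    (h : (a * b).coeff g ≠ 0) : ∃ u v, a.coeff u ≠ 0 ∧ b.coeff v ≠ 0 ∧ u * v = g := by
  classical
  have h1 : g ∈ (a * b).coeff.support := Finsupp.mem_support_iff.2 h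
  have h2 := support_coeff_mul_subset a b h1
  obtain ⟨u, hu, v, hv, huv⟩ := Finset.mem_mul.1 h2
  exact ⟨u, v, Finsupp.mem_support_iff.1 hu, Finsupp.mem_support_iff.1 hv, huv⟩

theorem neum (h : ThetaSuppStmt) : NeumStmt := by
  intro G _ I φ hφ n _ x y
  classical
  by_contra hno
  push Not at hno
  let P : Set (G × G) := ⋃ j : n, ((y j).coeff.support ×ˢ (x j).coeff.support : Finset (G × G))
  have hP : P.Finite := Set.finite_iUnion fun j => Finset.finite_toSet _
  have hcov : ⋃ i ∈ hP.toFinset, (i.1 * i.2⁻¹) •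
      ((φ.range.map (MulAut.conj i.2).toMonoidHom : Subgroup G) : Set G) = Set.univ := by
    rw [Set.eq_univ_iff_forall]
    intro g
    obtain ⟨j, f, hjf⟩ := hno g
    have h1 : (star (y j) * single g 1 * x j * star (theta φ f : AG G)).coeff 1 ≠ 0 := by
      intro h0
      apply hjf
      rw [trA, TrAlg.ma_apply, h0, map_zero]
    obtain ⟨a, w, ha, hw, haw⟩ := T3_coeff_mul h1
    obtain ⟨a', t, ha', ht, rfl⟩ := T3_coeff_mul ha
    obtain ⟨s, g', hs, hg', rfl⟩ := T3_coeff_mul ha'
    have hg : g' = g := by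
      by_contra hne
      apply hg'
      rw [coeff_single, Finsupp.single_apply, if_neg (fun h0 => hne h0.symm)]
    subst hg
    rw [star_coeff] at hs hw
    have hs' : (y j).coeff s⁻¹ ≠ 0 := by
      intro h0; apply hs; rw [h0, star_zero]
    have hw' : (theta φ f : AG G).coeff w⁻¹ ≠ 0 := by
      intro h0; apply hw; rw [h0, star_zero]
    obtain ⟨f', hf', _⟩ := h G I φ f w⁻¹ hw'
    rw [Set.mem_iUnion₂]
    refine ⟨(s⁻¹, t), ?_, ?_⟩
    · rw [Set.Finite.mem_toFinset]
      refine Set.mem_iUnion.2 ⟨j, ?_⟩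
      rw [Finset.mem_coe, Finset.mem_product]
      exact ⟨Finsupp.mem_support_iff.2 hs', Finsupp.mem_support_iff.2 ht⟩
    · rw [mem_leftCoset_iff, SetLike.mem_coe, Subgroup.mem_map]
      refine ⟨w⁻¹, ⟨f', hf'⟩, ?_⟩
      rw [MulEquiv.coe_toMonoidHom, MulAut.conj_apply]
      have h2 : w⁻¹ = s * g' * t := (eq_inv_of_mul_eq_one_left haw).symm
      rw [h2]
      group
  obtain ⟨k, _, hk⟩ := Subgroup.exists_finiteIndex_of_leftCoset_cover hcov
  apply hk.index_ne_zero
  rw [← hφ]
  exact Subgroup.index_map_equiv _ (MulAut.conj k.2)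

end

end MP8a6869

end

section

/-!
# MP_8a6869_an: item T4 (the coefficients)
-/

namespace MP8a6869

open MonoidAlgebra

noncomputable section

/-- The matrix unit `E_22`. -/
def T4_E : M3 := Matrix.single 2 2 1

/-- The matrix unit `E_00`. -/
def T4_E0 : M3 := Matrix.single 0 0 1

set_option linter.unusedSimpArgs false

theorem T4_EA1 : T4_E * A1 = T4_E := by
  ext i j
  fin_cases i <;> fin_cases j <;>
    simp [T4_E, A1, Matrix.mul_apply, Fin.sum_univ_three, Matrix.single_apply]

theorem T4_EA2 : T4_E * A2 = 0 := by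
  ext i j
  fin_cases i <;> fin_cases j <;>
    simp [T4_E, A2, Matrix.mul_apply, Fin.sum_univ_three, Matrix.single_apply]

theorem T4_EA3 : T4_E * A3 = 0 := by
  ext i j
  fin_cases i <;> fin_cases j <;>
    simp [T4_E, A3, Matrix.mul_apply, Fin.sum_univ_three, Matrix.single_apply]

theorem T4_EE : T4_E * T4_E = T4_E := by
  rw [T4_E, Matrix.single_mul_single_same, mul_one]

theorem T4_star_E : star T4_E = T4_E := by
  rw [T4_E, Matrix.star_eq_conjTranspose, Matrix.conjTranspose_single, star_one]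

theorem T4_E0E0 : T4_E0 * T4_E0 = T4_E0 := by
  rw [T4_E0, Matrix.single_mul_single_same, mul_one]

theorem T4_star_E0 : star T4_E0 = T4_E0 := by
  rw [T4_E0, Matrix.star_eq_conjTranspose, Matrix.conjTranspose_single, star_one]

theorem T4_tr (X : M3) : trM3.τ X = 1 / 3 * (X 0 0 + X 1 1 + X 2 2) := by
  rw [trM3, TrAlg.scale]
  change ((1 / 3 : ℝ) : ℂ) • (TrAlg.c.mat (Fin 3)).τ X = _
  rw [TrAlg.mat_apply, Fin.sum_univ_three, smul_eq_mul]
  push_cast
  rfl

theorem T4_trE : trM3.τ T4_E = 1 / 3 := by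
  rw [T4_tr]; simp [T4_E, Matrix.single_apply]

theorem T4_trE0 : trM3.τ T4_E0 = 1 / 3 := by
  rw [T4_tr]; simp [T4_E0, Matrix.single_apply]

theorem T4_trA1 : trM3.τ (T4_E0 * A1) = 1 / 3 * (2 / 5) := by
  rw [T4_tr]
  simp [T4_E0, A1, Matrix.mul_apply, Fin.sum_univ_three, Matrix.single_apply]

theorem T4_trA2 : trM3.τ (T4_E0 * A2) = 1 / 3 * (3 / 5 * Complex.I) := by
  rw [T4_tr]
  simp [T4_E0, A2, Matrix.mul_apply, Fin.sum_univ_three, Matrix.single_apply]

theorem T4_trA3 : trM3.τ (T4_E0 * A3) = 1 / 3 * (2 / 5) := by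
  rw [T4_tr]
  simp [T4_E0, A3, Matrix.mul_apply, Fin.sum_univ_three, Matrix.single_apply]

section

variable {G : Type} [Group G]

open Classical in
theorem T4_tau_single (g : G) (X : M3) :
    (trA G).τ (single g X) = if g = 1 then trM3.τ X else 0 := by
  rw [trA, TrAlg.ma_apply, coeff_single, Finsupp.single_apply]
  split_ifs <;> simp

theorem T4_p {I : ℕ} (φ : FreeGroup (Fin I) →* G) (f : FreeGroup (Fin I)) :
    (single 1 T4_E : AG G) * (theta φ f : AG G) = single (φ f) T4_E := by
  induction f using FreeGroup.induction_on with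
  | C1 =>
    rw [map_one, map_one]
    exact mul_one _
  | of i =>
    change (single 1 T4_E : AG G) * (theta φ (FreeGroup.of i) : AG G) =
      single (φ (FreeGroup.of i)) T4_E
    rw [theta_of, Uelt, mul_add, mul_add, single_mul_single, single_mul_single,
      single_mul_single, T4_EA1, T4_EA2, T4_EA3, single_zero, single_zero, one_mul, add_zero,
      add_zero]
  | inv_of i _ =>
    change (single 1 T4_E : AG G) * (theta φ (FreeGroup.of i)⁻¹ : AG G) =
      single (φ (FreeGroup.of i)⁻¹) T4_E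
    have h : (theta φ (FreeGroup.of i)⁻¹ : AG G) = star (Uelt (φ (FreeGroup.of i))) := by
      rw [map_inv, ← theta_of]
      rfl
    rw [h, star_Uelt, mul_add, mul_sub, single_mul_single, single_mul_single,
      single_mul_single, T4_EA1, T4_EA2, T4_EA3, single_zero, single_zero, one_mul, add_zero,
      sub_zero, map_inv]
  | mul f f' h h' =>
    rw [map_mul, map_mul]
    change (single 1 T4_E : AG G) * ((theta φ f : AG G) * (theta φ f' : AG G)) = _
    rw [← mul_assoc, h]
    have e1 : (single (φ f) T4_E : AG G) = single (φ f) 1 * single 1 T4_E := by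
      rw [single_mul_single, mul_one, one_mul]
    rw [e1, mul_assoc, h', single_mul_single, one_mul]

theorem T4_lin {I : ℕ} (φ : FreeGroup (Fin I) →* G) (hφ : Function.Injective φ)
    (CP : CondPair (trA G) (trB (FreeGroup (Fin I))))
    (hΘ : ∀ f, CP.Θ (single f 1) = (theta φ f : AG G)) (f0 : FreeGroup (Fin I))
    (x : MonoidAlgebra ℂ (FreeGroup (Fin I))) :
    (trA G).τ (star (single 1 T4_E : AG G) * CP.Θ x * single (φ f0)⁻¹ T4_E) =
      1 / 3 * x.coeff f0 := by
  classical
  have hs : star (single 1 T4_E : AG G) = single 1 T4_E := by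
    rw [star_single_ma, inv_one, T4_star_E]
  rw [hs]
  induction x using MonoidAlgebra.induction_linear with
  | zero => simp
  | add x y hx hy =>
    rw [map_add, mul_add, add_mul, map_add, hx, hy, coeff_add, Finsupp.add_apply, mul_add]
  | single f r =>
    have h1 : (single f r : MonoidAlgebra ℂ (FreeGroup (Fin I))) = r • single f 1 := by
      rw [smul_single, smul_eq_mul, mul_one]
    rw [h1, map_smul, hΘ, mul_smul_comm, smul_mul_assoc, map_smul, T4_p, single_mul_single,
      T4_EE, T4_tau_single, coeff_smul_apply, coeff_single, Finsupp.single_apply, T4_trE]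
    by_cases h : f = f0
    · rw [if_pos h, if_pos (by rw [h, mul_inv_cancel]), smul_eq_mul, smul_eq_mul]
      ring
    · rw [if_neg h, if_neg]
      · simp
      · intro h2
        exact h (hφ (mul_inv_eq_one.1 h2))

theorem T4_pow {I : ℕ} (i : Fin I) (n : ℕ) (h : (FreeGroup.of i) ^ n = 1) : n = 0 := by
  have h1 := congrArg (FreeGroup.lift fun _ : Fin I => Multiplicative.ofAdd (1 : ℤ)) h
  rw [map_pow, FreeGroup.lift_apply_of,
    map_one (FreeGroup.lift fun _ : Fin I => Multiplicative.ofAdd (1 : ℤ))] at h1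
  have h2 := congrArg Multiplicative.toAdd h1
  rw [toAdd_pow, toAdd_ofAdd, toAdd_one] at h2
  simpa using h2

end

theorem coef : CoefStmt := by
  intro G _ I φ hφ CP C hΘ hP hC i b e
  classical
  have hb : ∀ n : ℕ, n ≠ 0 → b ^ n ≠ 1 := by
    intro n hn h
    apply hn
    apply T4_pow i
    apply hφ
    rw [map_pow, map_one]
    exact h
  have hb1 : b ≠ 1 := by simpa using hb 1 one_ne_zero
  have hb2 : b ^ 2 ≠ 1 := hb 2 two_ne_zero
  have hb1' : b⁻¹ ≠ 1 := by rwa [Ne, inv_eq_one]
  have hb2' : b⁻¹ ^ 2 ≠ 1 := by rwa [Ne, inv_pow, inv_eq_one]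
  have key : ∀ (g : G) (f0 : FreeGroup (Fin I)),
      form C 1 [e, single 1 (Matrix.single 2 2 1)]
        [single g (Matrix.single 0 0 1), single (φ f0)⁻¹ (Matrix.single 2 2 1)] =
      1 / 3 * (trA G).τ (single g T4_E0 * star (theta φ f0 : AG G)) := by
    intro g f0
    rw [form, form, hC]
    have h1 : star e * 1 * single g (Matrix.single 0 0 1) = single g T4_E0 := by
      change star (single 1 T4_E0 : AG G) * 1 * single g T4_E0 = single g T4_E0
      rw [mul_one, star_single_ma, inv_one, T4_star_E0, single_mul_single, one_mul, T4_E0E0]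
    rw [h1]
    have h2 := T4_lin φ hφ CP hΘ f0 (CP.P (single g T4_E0))
    rw [hP] at h2
    exact h2
  have hs : star (theta φ (FreeGroup.of i) : AG G) =
      single b⁻¹ A1 - single (b⁻¹ ^ 2) A2 + single (b⁻¹ ^ 3) A3 := by
    rw [theta_of, star_Uelt]
  have hgen : ∀ g : G, (trA G).τ (single g T4_E0 * star (theta φ (FreeGroup.of i) : AG G)) =
      (if g * b⁻¹ = 1 then 1 / 3 * (2 / 5) else 0) -
        (if g * b⁻¹ ^ 2 = 1 then 1 / 3 * (3 / 5 * Complex.I) else 0) +
        (if g * b⁻¹ ^ 3 = 1 then 1 / 3 * (2 / 5) else 0) := by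
    intro g
    rw [hs, mul_add, mul_sub, map_add, map_sub, single_mul_single, single_mul_single,
      single_mul_single, T4_tau_single, T4_tau_single, T4_tau_single, T4_trA1, T4_trA2, T4_trA3]
  have e1 : b * b⁻¹ = 1 := mul_inv_cancel b
  have e2 : b * b⁻¹ ^ 2 = b⁻¹ := by group
  have e3 : b * b⁻¹ ^ 3 = b⁻¹ ^ 2 := by group
  have e4 : b ^ 2 * b⁻¹ = b := by group
  have e5 : b ^ 2 * b⁻¹ ^ 2 = 1 := by group
  have e6 : b ^ 2 * b⁻¹ ^ 3 = b⁻¹ := by group
  have e7 : b ^ 3 * b⁻¹ = b ^ 2 := by group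
  have e8 : b ^ 3 * b⁻¹ ^ 2 = b := by group
  have e9 : b ^ 3 * b⁻¹ ^ 3 = 1 := by group
  refine ⟨?_, ?_, ?_, ?_⟩
  · have h := key 1 1
    rw [map_one, inv_one, map_one] at h
    change form C 1 [e, single 1 (Matrix.single 2 2 1)]
      [single 1 (Matrix.single 0 0 1), single 1 (Matrix.single 2 2 1)] = _
    rw [h]
    change 1 / 3 * (trA G).τ (single 1 T4_E0 * star (1 : AG G)) = _
    rw [star_one, mul_one, T4_tau_single, if_pos rfl, T4_trE0]
    norm_num
  · have h := key b (FreeGroup.of i)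
    change form C 1 [e, single 1 (Matrix.single 2 2 1)]
      [single b (Matrix.single 0 0 1), single (φ (FreeGroup.of i))⁻¹ (Matrix.single 2 2 1)] = _
    rw [h, hgen, e1, e2, e3, if_pos rfl, if_neg hb1', if_neg hb2']
    ring
  · have h := key (b ^ 2) (FreeGroup.of i)
    change form C 1 [e, single 1 (Matrix.single 2 2 1)]
      [single (b ^ 2) (Matrix.single 0 0 1), single (φ (FreeGroup.of i))⁻¹ (Matrix.single 2 2 1)] = _
    rw [h, hgen, e4, e5, e6, if_pos rfl, if_neg hb1', if_neg hb1]
    ring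
  · have h := key (b ^ 3) (FreeGroup.of i)
    change form C 1 [e, single 1 (Matrix.single 2 2 1)]
      [single (b ^ 3) (Matrix.single 0 0 1), single (φ (FreeGroup.of i))⁻¹ (Matrix.single 2 2 1)] = _
    rw [h, hgen, e7, e8, e9, if_pos rfl, if_neg hb2, if_neg hb1]
    ring

end

end MP8a6869

end

section

namespace MP8a6869

theorem main : MainStmt :=
  main_of dom (cov psdt) (pair thetaSupp) (neum thetaSupp) coef
    (leftSys kol ext formHerm formPos) (fockSys extConj formRev) (trac extConj) cent l2f fact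
    (iota ext) (exi (pos fnorm)) free

end MP8a6869

end
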